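import Mathlib

/-!
# Abelian varieties over finite fields and theories relative to a scheme: definitions
-/

set_option autoImplicit false

namespace Pool.Agent.Y156.L

open Polynomial

/-- The Weil polynomials of degree `2 g`: monic polynomials with integral coefficients and constant
term `q ^ g`, all of whose complex roots have absolute value `√q`. -/
def weilPolys (q g : ℕ) : Set ℤ[X] :=
  {f | f.Monic ∧ f.natDegree = 2 * g ∧ f.coeff 0 = (q : ℤ) ^ g ∧
    ∀ z : ℂ, aeval z f = 0 → ‖z‖ ^ 2 = q}

/-- The Weil polynomials whose middle coefficient is prime to `q`. -/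
def ordinaryWeilPolys (q g : ℕ) : Set ℤ[X] := {f ∈ weilPolys q g | IsCoprime (f.coeff g) (q : ℤ)}

/-- Almost all families `f i` of Weil polynomials of degree `2 g i` have the property `P q f`: the
number of the exceptions is `O (q ^ (-1 / 6) log q)` times the number of all families. This holds
for all, for the ordinary ones, and for any set in between. -/
def AlmostAll {I : Type} [Fintype I] (g : I → ℕ) (P : ℕ → (I → ℤ[X]) → Prop) : Prop :=
  ∃ C : ℝ, ∀ q : ℕ, IsPrimePow q → ∀ S : I → Set ℤ[X],
    (∀ i, ordinaryWeilPolys q (g i) ⊆ S i ∧ S i ⊆ weilPolys q (g i)) →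
      (∀ i, (S i).Finite ∧ (S i).Nonempty) ∧
      ({f : I → ℤ[X] | (∀ i, f i ∈ S i) ∧ ¬ P q f}.ncard : ℝ) ≤
        C * (Real.log q * (q : ℝ) ^ (-(1 / 6) : ℝ)) * ∏ i, ((S i).ncard : ℝ)

/-- Up to powers, the numbers in the set `S` lie in a group generated by the nonzero elements of the
number field `E` and `r` numbers. -/
def GroupOfRank (E : IntermediateField ℚ ℂ) (r : ℕ) (S : Set ℂ) : Prop :=
  ∃ u : Fin r → ℂ, (∀ j, u j ≠ 0) ∧ ∀ ρ ∈ S, ∃ (N : ℕ) (y : ℂ) (m : Fin r → ℤ), 0 < N ∧ y ∈ E ∧
    y ≠ 0 ∧ ρ ^ N = y * ∏ j, u j ^ m j

/-- The data attached to an abelian variety `A` over a finite field. -/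
structure AbelianData (K : Type) [Field K] where
  /-- the dimension -/
  dim : ℕ
  /-- the Chow ring of `A`, with rational coefficients -/
  CH : Type
  [chRing : CommRing CH]
  [chAlgebra : Algebra ℚ CH]
  /-- `codim c` is the space of the cycles of codimension `c` -/
  codim : ℕ → Submodule ℚ CH
  /-- the ring `CH ^ dim (A × A)` of correspondences, with rational coefficients -/
  Corr : Type
  [corrRing : Ring Corr]
  [corrAlgebra : Algebra ℚ Corr]
  /-- the cohomology ring of `A` over an algebraic closure, with coefficients in `K` -/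
  H : Type
  [hRing : Ring H]
  [hAlgebra : Algebra K H]
  /-- the first cohomology group -/
  H1 : Submodule K H
  /-- the cycle class map -/
  cl : CH →+* H
  /-- the degree of zero-cycles -/
  deg : CH →ₗ[ℚ] ℚ
  /-- the orientation of the cohomology -/
  tr : H →ₗ[K] K
  /-- the Frobenius endomorphism, on the cohomology -/
  frobH : H →ₐ[K] H
  /-- the Frobenius endomorphism, as a correspondence -/
  frob : Corr
  /-- `corr x y` is the class of `x × y`, the correspondence which maps `z` to the multiple of `y`
  by the intersection number of `x` and `z` -/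
  corr : CH → CH → Corr
  /-- the operation of correspondences on the cohomology -/
  act : Corr →+* Module.End K H

attribute [instance] AbelianData.chRing AbelianData.chAlgebra AbelianData.corrRing
  AbelianData.corrAlgebra AbelianData.hRing AbelianData.hAlgebra

section

variable {K : Type} [Field K] (A : AbelianData K)

/-- `x` is a cycle of codimension `c`. -/
def AbelianData.Codim (c : ℕ) (x : A.CH) : Prop := x ∈ A.codim c

/-- `x` is a product of `n` divisor classes. -/
def AbelianData.IsDivisorProduct (n : ℕ) (x : A.CH) : Prop :=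
  ∃ L : List A.CH, L.length = n ∧ (∀ y ∈ L, y ∈ A.codim 1) ∧ x = L.prod

/-- The Chow ring is graded, and the degree is zero on cycles of positive dimension. -/
structure IsChowRing : Prop where
  one_mem : A.Codim 0 1
  mul_mem : ∀ {c d : ℕ} {x y : A.CH}, A.Codim c x → A.Codim d y → A.Codim (c + d) (x * y)
  top : ∀ {c : ℕ} {x : A.CH}, A.dim < c → A.Codim c x → x = 0
  deg_eq_zero : ∀ {c : ℕ} {x : A.CH}, c ≠ A.dim → A.Codim c x → A.deg x = 0

/-- The cohomology is finite-dimensional, not zero, and satisfies Poincare duality; cycle classes are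
central, and the orientation extends the degree. -/
structure IsCohomology : Prop where
  finite : Module.Finite K A.H
  nontrivial : Nontrivial A.H
  nondeg : ∀ a : A.H, (∀ b, A.tr (a * b) = 0) → a = 0
  cl_central : ∀ (x : A.CH) (a : A.H), A.cl x * a = a * A.cl x
  tr_cl : ∀ x : A.CH, A.tr (A.cl x) = (A.deg x : K)

/-- The Frobenius endomorphism has degree `Q ^ dim`, and it multiplies the classes of cycles of
codimension `c` by `Q ^ c`. -/
structure IsFrobenius (Q : ℕ) : Prop where
  tr_frob : ∀ a : A.H, A.tr (A.frobH a) = (Q : K) ^ A.dim * A.tr a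
  frob_cl : ∀ {c : ℕ} {x : A.CH}, A.Codim c x → A.frobH (A.cl x) = (Q : K) ^ c • A.cl x

/-- The correspondence `corr x y` acts on the cohomology as described above. -/
def CorrAct : Prop :=
  ∀ {c d : ℕ} {x y : A.CH}, c + d = A.dim → A.Codim c x → A.Codim d y →
    ∀ a : A.H, A.act (A.corr x y) a = A.tr (A.cl x * a) • A.cl y

/-- The operation of correspondences on the cohomology; homologically trivial correspondences
are nilpotent (theorem of Kimura). -/
structure IsCorrespondence : Prop where
  act_frob : ∀ a : A.H, A.act A.frob a = A.frobH a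
  act_corr : CorrAct A
  nilpotent : ∀ Γ : A.Corr, A.act Γ = 0 → IsNilpotent Γ

/-- The cohomology is generated by `H^1`, whose elements anticommute. -/
structure IsExterior : Prop where
  generated : Algebra.adjoin K (A.H1 : Set A.H) = ⊤
  anticomm : ∀ a ∈ A.H1, ∀ b ∈ A.H1, a * b = -(b * a)

/-- `H^1` is spanned by eigenvectors of Frobenius with eigenvalues `z ^ s`, where `z` is a root of
one of the polynomials `f i`. -/
def HasRoots (s : ℕ) {I : Type} (f : I → ℤ[X]) : Prop :=
  Submodule.span K {a | a ∈ A.H1 ∧ ∃ i, ∃ z : K, aeval z (f i) = 0 ∧ A.frobH a = z ^ s • a} = A.H1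

/-- The theorem of Tate: Frobenius invariants in `H^2(1)` are combinations of classes of divisors. -/
def TateDivisors (Q : ℕ) : Prop :=
  ∀ a ∈ A.H1 * A.H1, A.frobH a = (Q : K) • a → a ∈ Submodule.span K (A.cl '' A.codim 1)

/-- `A` is an abelian variety over the field with `Q = q ^ s` elements, isogenous to a product of
powers of abelian varieties which come from the field with `q` elements and have the characteristic
polynomials of Frobenius `f i` over this field. -/
structure IsAbelian (q s : ℕ) {I : Type} (f : I → ℤ[X]) : Prop where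
  pos : 0 < s
  chow : IsChowRing A
  cohomology : IsCohomology A
  frobenius : IsFrobenius A (q ^ s)
  correspondence : IsCorrespondence A
  exterior : IsExterior A
  roots : HasRoots A s f
  divisors : TateDivisors A (q ^ s)

end

/-- Data of a bigraded theory relative to a scheme `U`: the sums `N` and `M` of the groups
`H^i(U, j)` and `H^i(A × U, j)`, for instance motivic cohomology or `ℓ`-adic cohomology. -/
structure RelData {K : Type} [Field K] (A : AbelianData K) where
  /-- the sum of the groups of `U` -/
  N : Type
  [groupN : AddCommGroup N]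
  [moduleN : Module ℚ N]
  /-- the sum of the groups of `A × U` -/
  M : Type
  [groupM : AddCommGroup M]
  [moduleM : Module ℚ M]
  /-- the group `H^i(U, j)` -/
  grN : ℤ → ℤ → Submodule ℚ N
  /-- the group `H^i(A × U, j)` -/
  grM : ℤ → ℤ → Submodule ℚ M
  /-- the product with a class on `A` -/
  times : A.CH →ₗ[ℚ] N →ₗ[ℚ] M
  /-- the multiplication by a class on `A`, followed by the push-forward to `U` -/
  pair : A.CH →ₗ[ℚ] M →ₗ[ℚ] N
  /-- the operation of the correspondences from `A` to `A` -/
  act : A.Corr →ₐ[ℚ] Module.End ℚ M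
  /-- the operation of the Frobenius endomorphism of `U` -/
  frobN : Module.End ℚ N
  frobM : Module.End ℚ M

attribute [instance] RelData.groupN RelData.moduleN RelData.groupM RelData.moduleM

section

variable {K : Type} [Field K] {A : AbelianData K} (Q : ℕ) (T : RelData A)

namespace RelData

/-- `n` lies in `H^i(U, j)`. -/
def DegN (i j : ℤ) (n : T.N) : Prop := n ∈ T.grN i j

/-- `m` lies in `H^i(A × U, j)`. -/
def DegM (i j : ℤ) (m : T.M) : Prop := m ∈ T.grM i j

/-- The product `x × n`, an element of the theory for `A × U`. -/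
def mul (x : A.CH) (n : T.N) : T.M := T.times x n

/-- The push-forward to `U` of the product of `x` and `m`. -/
def push (x : A.CH) (m : T.M) : T.N := T.pair x m

/-- The operation of the correspondence `Γ`. -/
def app (Γ : A.Corr) (m : T.M) : T.M := T.act Γ m

/-- The Frobenius endomorphism of `U`, on the theory for `U`. -/
def FN (n : T.N) : T.N := T.frobN n

/-- The Frobenius endomorphism of `U`, on the theory for `A × U`. -/
def FM (m : T.M) : T.M := T.frobM m

/-- The multiple of an element. -/
def scaleN (t : ℚ) (n : T.N) : T.N := t • n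

/-- The multiple of an element. -/
def scaleM (t : ℚ) (m : T.M) : T.M := t • m

end RelData

/-- The degrees of products and push-forwards, and the projection formula. -/
structure IsGradedTheory : Prop where
  mul_mem : ∀ {c : ℕ} {x : A.CH} {i j : ℤ} {n : T.N}, A.Codim c x → T.DegN i j n →
    T.DegM (i + 2 * c) (j + c) (T.mul x n)
  push_mem : ∀ {c d : ℕ} {x : A.CH} {i j : ℤ} {m : T.M}, c + d = A.dim → A.Codim d x →
    T.DegM i j m → T.DegN (i - 2 * c) (j - c) (T.push x m)
  push_mul : ∀ (x y : A.CH) (n : T.N), T.push x (T.mul y n) = T.scaleN (A.deg (x * y)) n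

/-- The operation of correspondences on the theory: `corr x y` acts as the push-forward with `x`,
followed by the product with `y`, and Frobenius acts as `Q ^ c` on cycles of codimension `c`. -/
structure ActsOnTheory : Prop where
  app_corr : ∀ {c d : ℕ} {x y : A.CH} (m : T.M), c + d = A.dim → A.Codim c x → A.Codim d y →
    T.app (A.corr x y) m = T.mul y (T.push x m)
  app_frob : ∀ {c : ℕ} {x : A.CH} (n : T.N), A.Codim c x →
    T.app A.frob (T.mul x n) = T.scaleM ((Q : ℚ) ^ c) (T.mul x n)

/-- The operation of the Frobenius endomorphism of `U` on the theory. -/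
structure HasFrobenius : Prop where
  FM_mem : ∀ {i j : ℤ} {m : T.M}, T.DegM i j m → T.DegM i j (T.FM m)
  FM_mul : ∀ (x : A.CH) (n : T.N), T.FM (T.mul x n) = T.mul x (T.FN n)
  FN_push : ∀ (x : A.CH) (m : T.M), T.FN (T.push x m) = T.push x (T.FM m)
  FM_app : ∀ (Γ : A.Corr) (m : T.M), T.FM (T.app Γ m) = T.app Γ (T.FM m)

/-- The formal properties of a theory relative to a scheme `U`, over the field with `Q` elements. -/
structure IsRel : Prop where
  graded : IsGradedTheory T
  acts : ActsOnTheory Q T
  frobenius : HasFrobenius T

namespace RelData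

/-- The element `m` lies in `H^i(A × U, j)`, and the Frobenius endomorphism of `A × U` multiplies it
by `Q ^ j`. Every element of motivic cohomology is of this kind; in `ℓ`-adic cohomology these are the
Frobenius invariants. -/
def InvM (i j : ℤ) (m : T.M) : Prop := T.DegM i j m ∧ T.app A.frob (T.FM m) = T.scaleM ((Q : ℚ) ^ j) m

/-- The element `n` lies in `H^i(U, j)`, and the Frobenius endomorphism of `U` multiplies it by
`Q ^ j`. -/
def InvN (i j : ℤ) (n : T.N) : Prop := T.DegN i j n ∧ T.FN n = T.scaleN ((Q : ℚ) ^ j) n

/-- The Frobenius endomorphism of `A × U` acts on `H^i(A × U, j)` as multiplication by `Q ^ j`, as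
in motivic cohomology. -/
def IsPure : Prop := ∀ (i j : ℤ) (m : T.M), T.DegM i j m → T.InvM Q i j m

/-- The Frobenius endomorphism of `U` satisfies, on the elements considered in `InvM`, for all `i` and
`j`, a nonzero rational polynomial whose roots in `ℂ` lie, up to powers, in a group generated by the
nonzero elements of the number field `E` and `r` numbers. In `ℓ`-adic cohomology this is a condition
on the eigenvalues of the Frobenius endomorphism of `U`. -/
def HasRank (E : IntermediateField ℚ ℂ) (r : ℕ) : Prop :=
  ∀ i j : ℤ, ∃ χ : ℚ[X], χ ≠ 0 ∧ GroupOfRank E r {ρ : ℂ | aeval ρ χ = 0} ∧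
    ∀ m, T.InvM Q i j m → aeval T.frobM χ m = 0

/-- The Kunneth formula: every element `m` of `H^i(A × U, j)` which Frobenius multiplies by `Q ^ j`
is the sum of products of the `D t` with unique elements `z t` of `H^(i - 2 c t)(U, j - c t)` which
Frobenius multiplies by `Q ^ (j - c t)`. -/
def Kunneth {J : Type} [Fintype J] (c : J → ℕ) (D : J → A.CH) : Prop :=
  ∀ (i j : ℤ) (m : T.M), T.InvM Q i j m → ∃! z : J → T.N,
    (∀ t, T.InvN Q (i - 2 * c t) (j - c t) (z t)) ∧ m = ∑ t, T.mul (D t) (z t)

end RelData

end

end Pool.Agent.Y156.L
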