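import Mathlib
import Pool.Agent.Y156.L.Defs

/-!
# The properties of almost all abelian varieties
-/

set_option autoImplicit false

namespace Pool.Agent.Y156.L

open Polynomial

section

variable {K : Type} [Field K] {A : AbelianData K}

/-- The data of a regulator from the theory `T` (motivic cohomology, tensored with `ℚ_ℓ`) to the
theory `R` (`ℓ`-adic cohomology), both relative to the same scheme `U`. -/
structure Regulator (T R : RelData A) where
  /-- the regulator for `U` -/
  cN : T.N →ₗ[ℚ] R.N
  /-- the regulator for `A × U` -/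
  cM : T.M →ₗ[ℚ] R.M

/-- The regulator for `U`. -/
def Regulator.regN {T R : RelData A} (c : Regulator T R) (n : T.N) : R.N := c.cN n

/-- The regulator for `A × U`. -/
def Regulator.regM {T R : RelData A} (c : Regulator T R) (m : T.M) : R.M := c.cM m

/-- The regulator is compatible with the grading, products and push-forwards. -/
structure IsRegulator {T R : RelData A} (c : Regulator T R) : Prop where
  memN : ∀ {i j : ℤ} {n : T.N}, T.DegN i j n → R.DegN i j (c.regN n)
  memM : ∀ {i j : ℤ} {m : T.M}, T.DegM i j m → R.DegM i j (c.regM m)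
  mul : ∀ (x : A.CH) (n : T.N), c.regM (T.mul x n) = R.mul x (c.regN n)
  push : ∀ (x : A.CH) (m : T.M), c.regN (T.push x m) = R.push x (c.regM m)

/-- The regulator `H^i(U, j) → R^i(U, j)` is onto the Frobenius invariants. -/
def OntoN {T R : RelData A} (c : Regulator T R) (Q : ℕ) (i j : ℤ) : Prop :=
  ∀ w : R.N, R.InvN Q i j w → ∃ n, T.DegN i j n ∧ c.regN n = w

/-- The regulator `H^i(A × U, j) → R^i(A × U, j)` is onto the Frobenius invariants. -/
def OntoM {T R : RelData A} (c : Regulator T R) (Q : ℕ) (i j : ℤ) : Prop :=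
  ∀ w : R.M, R.InvM Q i j w → ∃ m, T.DegM i j m ∧ c.regM m = w

/-- The regulator `H^i(U, j) → R^i(U, j)` is injective. -/
def InjectiveN {T R : RelData A} (c : Regulator T R) (i j : ℤ) : Prop :=
  ∀ n, T.DegN i j n → c.regN n = 0 → n = 0

/-- The regulator `H^i(A × U, j) → R^i(A × U, j)` is injective. -/
def InjectiveM {T R : RelData A} (c : Regulator T R) (i j : ℤ) : Prop :=
  ∀ m, T.DegM i j m → c.regM m = 0 → m = 0

/-- The data of the cup product pairings of `Z` and `A × Z`: the product, followed by the degree. -/
structure CupProduct (T : RelData A) where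
  /-- the pairing for `Z` -/
  BN : T.N →ₗ[ℚ] T.N →ₗ[ℚ] ℚ
  /-- the pairing for `A × Z` -/
  BM : T.M →ₗ[ℚ] T.M →ₗ[ℚ] ℚ

/-- The pairing for `Z`. -/
def CupProduct.cupN {T : RelData A} (B : CupProduct T) (a b : T.N) : ℚ := B.BN a b

/-- The pairing for `A × Z`. -/
def CupProduct.cupM {T : RelData A} (B : CupProduct T) (a b : T.M) : ℚ := B.BM a b

/-- The projection formula for the cup product pairings. -/
structure IsCupProduct {T : RelData A} (B : CupProduct T) : Prop where
  left : ∀ (x : A.CH) (n : T.N) (m : T.M), B.cupM (T.mul x n) m = B.cupN n (T.push x m)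
  right : ∀ (x : A.CH) (m : T.M) (n : T.N), B.cupM m (T.mul x n) = B.cupN (T.push x m) n

/-- The pairing `H^i(Z, j) × H^(2 d - i)(Z, d - j) → ℚ` is perfect. -/
def PerfectN {T : RelData A} (B : CupProduct T) (d i j : ℤ) : Prop :=
  (B.BN.domRestrict₁₂ (T.grN i j) (T.grN (2 * d - i) (d - j))).IsPerfPair

/-- The pairing `H^i(A × Z, j) × H^(2 d - i)(A × Z, d - j) → ℚ` is perfect. -/
def PerfectM {T : RelData A} (B : CupProduct T) (d i j : ℤ) : Prop :=
  (B.BM.domRestrict₁₂ (T.grM i j) (T.grM (2 * d - i) (d - j))).IsPerfPair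

end

/-- A finite family of products `D t` of `c t` divisor classes on `A`, with all `c t ≤ dim A`, such
that every number `k ≤ dim A` is one of the `c t`. -/
structure IsFamily {K : Type} [Field K] (A : AbelianData K) {J : Type} [Fintype J] (c : J → ℕ)
    (D : J → A.CH) : Prop where
  product : ∀ t, A.IsDivisorProduct (c t) (D t)
  le : ∀ t, c t ≤ A.dim
  exists_eq : ∀ k ≤ A.dim, ∃ t, c t = k

/-- `TateForRankOver E q r f`: for every abelian variety `A` as in `IsAbelian` there are finitely
many products `D t` of divisor classes on `A`, such that for all `R` (cohomology) relative to any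
scheme `U`, with the formal properties and of rank at most `r` over `E`: the Kunneth formula holds,
and for all `T` (motivic cohomology) relative to `U` with a regulator to `R`, and all `i`, `j`, the
regulator of `A × U` in bidegree `(i, j)` is onto the Frobenius invariants if and only if those of
`U` in the bidegrees `(i - 2 k, j - k)`, `0 ≤ k ≤ dim A`, are. -/
def TateForRankOver (E : IntermediateField ℚ ℂ) (q r : ℕ) {I : Type} (f : I → ℤ[X]) : Prop :=
  ∀ (K : Type) [Field K] [CharZero K] (A : AbelianData K) (s : ℕ), IsAbelian A q s f →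
    ∃ (J : Type) (_ : Fintype J) (c : J → ℕ) (D : J → A.CH), IsFamily A c D ∧
      ∀ R : RelData A, IsRel (q ^ s) R → R.HasRank (q ^ s) E r → R.Kunneth (q ^ s) c D ∧
        ∀ (T : RelData A) (ρ : Regulator T R), IsRel (q ^ s) T → IsRegulator ρ →
          ∀ i j : ℤ, OntoM ρ (q ^ s) i j ↔
            ∀ k : ℕ, k ≤ A.dim → OntoN ρ (q ^ s) (i - 2 * k) (j - k)

/-- `BeilinsonForRankOver E q r f`: for every abelian variety `A` as in `IsAbelian` there are
finitely many products `D t` of divisor classes on `A`, such that for all `T` (motivic cohomology)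
relative to any scheme `U`, with the formal properties, pure and of rank at most `r` over `E`: the
Kunneth formula holds, and for all `R` (cohomology) relative to `U` with a regulator from `T` to `R`,
and all `i`, `j`, the regulator of `A × U` in bidegree `(i, j)` is injective if and only if those
of `U` in the bidegrees `(i - 2 k, j - k)`, `0 ≤ k ≤ dim A`, are. -/
def BeilinsonForRankOver (E : IntermediateField ℚ ℂ) (q r : ℕ) {I : Type} (f : I → ℤ[X]) : Prop :=
  ∀ (K : Type) [Field K] [CharZero K] (A : AbelianData K) (s : ℕ), IsAbelian A q s f →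
    ∃ (J : Type) (_ : Fintype J) (c : J → ℕ) (D : J → A.CH), IsFamily A c D ∧
      ∀ T : RelData A, IsRel (q ^ s) T → T.IsPure (q ^ s) → T.HasRank (q ^ s) E r →
        T.Kunneth (q ^ s) c D ∧
        ∀ (R : RelData A) (ρ : Regulator T R), IsRel (q ^ s) R → IsRegulator ρ →
          ∀ i j : ℤ, InjectiveM ρ i j ↔ ∀ k : ℕ, k ≤ A.dim → InjectiveN ρ (i - 2 * k) (j - k)

/-- `ParshinForRankOver E q r f`: for every abelian variety `A` as in `IsAbelian` there are
finitely many products `D t` of divisor classes on `A`, such that for all `T` (motivic cohomology)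
relative to any scheme `Z`, with the formal properties, pure and of rank at most `r` over `E`: the
Kunneth formula holds, and for all `i`, `j` the group `H^i(A × Z, j)` is zero if and only if the
groups `H^(i - 2 k)(Z, j - k)`, `0 ≤ k ≤ dim A`, are zero. -/
def ParshinForRankOver (E : IntermediateField ℚ ℂ) (q r : ℕ) {I : Type} (f : I → ℤ[X]) : Prop :=
  ∀ (K : Type) [Field K] [CharZero K] (A : AbelianData K) (s : ℕ), IsAbelian A q s f →
    ∃ (J : Type) (_ : Fintype J) (c : J → ℕ) (D : J → A.CH), IsFamily A c D ∧
      ∀ T : RelData A, IsRel (q ^ s) T → T.IsPure (q ^ s) → T.HasRank (q ^ s) E r →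
        T.Kunneth (q ^ s) c D ∧
        ∀ i j : ℤ, T.grM i j = ⊥ ↔ ∀ k : ℕ, k ≤ A.dim → T.grN (i - 2 * k) (j - k) = ⊥

/-- `PerfectForRankOver E q r f`: for every abelian variety `A` as in `IsAbelian` there are
finitely many products `D t` of divisor classes on `A`, such that for all `T` (motivic cohomology)
relative to any smooth projective scheme `Z` of any dimension `d`, with the formal properties, pure
and of rank at most `r` over `E`: the Kunneth formula holds, and for all `i`, `j` the cup product
pairing `H^i(A × Z, j) × H^(2 (dim A + d) - i)(A × Z, dim A + d - j) → ℚ` is perfect if and only if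
the pairings `H^(i - 2 k)(Z, j - k) × H^(2 d - (i - 2 k))(Z, d - (j - k)) → ℚ`, `0 ≤ k ≤ dim A`, are
perfect. -/
def PerfectForRankOver (E : IntermediateField ℚ ℂ) (q r : ℕ) {I : Type} (f : I → ℤ[X]) : Prop :=
  ∀ (K : Type) [Field K] [CharZero K] (A : AbelianData K) (s : ℕ), IsAbelian A q s f →
    ∃ (J : Type) (_ : Fintype J) (c : J → ℕ) (D : J → A.CH), IsFamily A c D ∧
      ∀ T : RelData A, IsRel (q ^ s) T → T.IsPure (q ^ s) → T.HasRank (q ^ s) E r →
        T.Kunneth (q ^ s) c D ∧ ∀ B : CupProduct T, IsCupProduct B →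
          ∀ d i j : ℤ, PerfectM B (A.dim + d) i j ↔
            ∀ k : ℕ, k ≤ A.dim → PerfectN B d (i - 2 * k) (j - k)

end Pool.Agent.Y156.L
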