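import Mathlib
import Pool.Agent.Y156.L.Props

/-!
# The fields of the structures, unfolded
-/

set_option autoImplicit false

namespace Pool.Agent.Y156.L

open Polynomial

section

variable {K : Type} [Field K] {A : AbelianData K} {q s : ℕ} {I : Type} {f : I → ℤ[X]}
  (hA : IsAbelian A q s f)

include hA

namespace IsAbelian

theorem one_mem : (1 : A.CH) ∈ A.codim 0 := hA.chow.one_mem

theorem mul_mem {c d : ℕ} {x y : A.CH} (hx : x ∈ A.codim c) (hy : y ∈ A.codim d) :
    x * y ∈ A.codim (c + d) := hA.chow.mul_mem hx hy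

theorem top {c : ℕ} {x : A.CH} (hc : A.dim < c) (hx : x ∈ A.codim c) : x = 0 :=
  hA.chow.top hc hx

theorem deg_eq_zero {c : ℕ} {x : A.CH} (hc : c ≠ A.dim) (hx : x ∈ A.codim c) : A.deg x = 0 :=
  hA.chow.deg_eq_zero hc hx

theorem finite : Module.Finite K A.H := hA.cohomology.finite

theorem nontrivial : Nontrivial A.H := hA.cohomology.nontrivial

theorem nondeg (a : A.H) (h : ∀ b, A.tr (a * b) = 0) : a = 0 := hA.cohomology.nondeg a h

theorem tr_cl (x : A.CH) : A.tr (A.cl x) = (A.deg x : K) := hA.cohomology.tr_cl x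

theorem tr_frob (a : A.H) : A.tr (A.frobH a) = ((q ^ s : ℕ) : K) ^ A.dim * A.tr a :=
  hA.frobenius.tr_frob a

theorem frob_cl {c : ℕ} {x : A.CH} (hx : x ∈ A.codim c) :
    A.frobH (A.cl x) = ((q ^ s : ℕ) : K) ^ c • A.cl x := hA.frobenius.frob_cl hx

theorem act_frob (a : A.H) : A.act A.frob a = A.frobH a := hA.correspondence.act_frob a

theorem act_corr {c d : ℕ} {x y : A.CH} (h : c + d = A.dim) (hx : x ∈ A.codim c)
    (hy : y ∈ A.codim d) (a : A.H) : A.act (A.corr x y) a = A.tr (A.cl x * a) • A.cl y :=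
  hA.correspondence.act_corr h hx hy a

theorem nilpotent (Γ : A.Corr) (h : A.act Γ = 0) : IsNilpotent Γ :=
  hA.correspondence.nilpotent Γ h

theorem generated : Algebra.adjoin K (A.H1 : Set A.H) = ⊤ := hA.exterior.generated

theorem anticomm (a : A.H) (ha : a ∈ A.H1) (b : A.H) (hb : b ∈ A.H1) : a * b = -(b * a) :=
  hA.exterior.anticomm a ha b hb

theorem spanned : Submodule.span K {a | a ∈ A.H1 ∧ ∃ i, ∃ z : K, aeval z (f i) = 0 ∧
    A.frobH a = z ^ s • a} = A.H1 := hA.roots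

theorem tate (a : A.H) (ha : a ∈ A.H1 * A.H1) (h : A.frobH a = ((q ^ s : ℕ) : K) • a) :
    a ∈ Submodule.span K (A.cl '' A.codim 1) := hA.divisors a ha h

end IsAbelian

end

section

variable {K : Type} [Field K] {A : AbelianData K} {Q : ℕ} {T : RelData A} (hT : IsRel Q T)

include hT

namespace IsRel

theorem times_mem {c : ℕ} {x : A.CH} {i j : ℤ} {n : T.N} (hx : x ∈ A.codim c)
    (hn : n ∈ T.grN i j) : T.times x n ∈ T.grM (i + 2 * c) (j + c) := hT.graded.mul_mem hx hn

theorem pair_mem {c d : ℕ} {x : A.CH} {i j : ℤ} {m : T.M} (h : c + d = A.dim)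
    (hx : x ∈ A.codim d) (hm : m ∈ T.grM i j) : T.pair x m ∈ T.grN (i - 2 * c) (j - c) :=
  hT.graded.push_mem h hx hm

theorem pair_times (x y : A.CH) (n : T.N) : T.pair x (T.times y n) = A.deg (x * y) • n :=
  hT.graded.push_mul x y n

theorem act_corr {c d : ℕ} {x y : A.CH} (m : T.M) (h : c + d = A.dim) (hx : x ∈ A.codim c)
    (hy : y ∈ A.codim d) : T.act (A.corr x y) m = T.times y (T.pair x m) :=
  hT.acts.app_corr m h hx hy

theorem act_frob_times {c : ℕ} {x : A.CH} (n : T.N) (hx : x ∈ A.codim c) :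
    T.act A.frob (T.times x n) = (Q : ℚ) ^ c • T.times x n := hT.acts.app_frob n hx

theorem frob_mem {i j : ℤ} {m : T.M} (hm : m ∈ T.grM i j) : T.frobM m ∈ T.grM i j :=
  hT.frobenius.FM_mem hm

theorem frob_times (x : A.CH) (n : T.N) : T.frobM (T.times x n) = T.times x (T.frobN n) :=
  hT.frobenius.FM_mul x n

theorem frob_pair (x : A.CH) (m : T.M) : T.frobN (T.pair x m) = T.pair x (T.frobM m) :=
  hT.frobenius.FN_push x m

theorem frob_act (Γ : A.Corr) (m : T.M) : T.frobM (T.act Γ m) = T.act Γ (T.frobM m) :=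
  hT.frobenius.FM_app Γ m

end IsRel

end

end Pool.Agent.Y156.L
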