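import Mathlib
import Pool.Agent.Y156.L.Wrap

/-!
# The classes of products of divisors on an abelian variety
-/

set_option autoImplicit false
set_option linter.unusedSectionVars false

namespace Pool.Agent.Y156.L

open Polynomial Module

variable {K : Type} [Field K] [CharZero K] {A : AbelianData K}

/-- The span of the classes of products of `n` divisors. -/
def NK (A : AbelianData K) (n : ℕ) : Submodule K A.H :=
  Submodule.span K {a | ∃ x, A.IsDivisorProduct n x ∧ a = A.cl x}

theorem cl_smul (t : ℚ) (x : A.CH) : A.cl (t • x) = (t : K) • A.cl x := by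
  have h1 : A.cl (algebraMap ℚ A.CH t) = algebraMap K A.H (t : K) := by
    have h2 : (A.cl).comp (algebraMap ℚ A.CH) =
        (algebraMap K A.H).comp (algebraMap ℚ K) := Subsingleton.elim _ _
    have h3 := RingHom.congr_fun h2 t
    rw [RingHom.comp_apply, RingHom.comp_apply, eq_ratCast (algebraMap ℚ K)] at h3
    exact h3
  rw [Algebra.smul_def, map_mul, h1, Algebra.smul_def]

theorem act_smul (t : ℚ) (Γ : A.Corr) : A.act (t • Γ) = (t : K) • A.act Γ := by
  have h1 : A.act (algebraMap ℚ A.Corr t) = algebraMap K (Module.End K A.H) (t : K) := by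
    have h2 : (A.act).comp (algebraMap ℚ A.Corr) =
        (algebraMap K (Module.End K A.H)).comp (algebraMap ℚ K) := Subsingleton.elim _ _
    have h3 := RingHom.congr_fun h2 t
    rw [RingHom.comp_apply, RingHom.comp_apply, eq_ratCast (algebraMap ℚ K)] at h3
    exact h3
  rw [Algebra.smul_def, map_mul, h1, Algebra.smul_def]

theorem divisorProduct_mul {m n : ℕ} {x y : A.CH} (hx : A.IsDivisorProduct m x)
    (hy : A.IsDivisorProduct n y) : A.IsDivisorProduct (m + n) (x * y) := by
  obtain ⟨L, hn, hL, rfl⟩ := hx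
  obtain ⟨L', hn', hL', rfl⟩ := hy
  refine ⟨L ++ L', by rw [List.length_append, hn, hn'], ?_, by rw [List.prod_append]⟩
  intro x hx
  rcases List.mem_append.1 hx with h | h
  · exact hL x h
  · exact hL' x h

theorem one_mem_NK : (1 : A.H) ∈ NK A 0 :=
  Submodule.subset_span ⟨1, ⟨[], rfl, by simp, by simp⟩, by rw [map_one]⟩

theorem mul_mem_NK {m n : ℕ} {a b : A.H} (ha : a ∈ NK A m) (hb : b ∈ NK A n) :
    a * b ∈ NK A (m + n) := by
  unfold NK at ha
  induction ha using Submodule.span_induction with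
  | mem a ha =>
    obtain ⟨D, hD, rfl⟩ := ha
    unfold NK at hb
    induction hb using Submodule.span_induction with
    | mem b hb =>
      obtain ⟨D', hD', rfl⟩ := hb
      exact Submodule.subset_span ⟨D * D', divisorProduct_mul hD hD', by rw [map_mul]⟩
    | zero => rw [mul_zero]; exact Submodule.zero_mem _
    | add x y _ _ hx hy => rw [mul_add]; exact Submodule.add_mem _ hx hy
    | smul c x _ hx => rw [mul_smul_comm]; exact Submodule.smul_mem _ _ hx
  | zero => rw [zero_mul]; exact Submodule.zero_mem _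
  | add x y _ _ hx hy => rw [add_mul]; exact Submodule.add_mem _ hx hy
  | smul c x _ hx => rw [smul_mul_assoc]; exact Submodule.smul_mem _ _ hx

theorem mem_NK_one {a : A.H} (ha : a ∈ Submodule.span K (A.cl '' A.codim 1)) : a ∈ NK A 1 := by
  refine Submodule.span_mono ?_ ha
  rintro _ ⟨D, hD, rfl⟩
  exact ⟨D, ⟨[D], rfl, by simpa using hD, by simp⟩, rfl⟩

variable {q s : ℕ} {I : Type} {f : I → ℤ[X]} (hA : IsAbelian A q s f)

include hA

theorem divisorProduct_mem {n : ℕ} {x : A.CH} (hx : A.IsDivisorProduct n x) : x ∈ A.codim n := by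
  obtain ⟨L, hn, hL, rfl⟩ := hx
  induction L generalizing n with
  | nil =>
    simp only [List.length_nil] at hn
    subst hn
    simpa using hA.one_mem
  | cons a L ih =>
    simp only [List.length_cons] at hn
    subst hn
    rw [List.prod_cons, add_comm]
    exact hA.mul_mem (hL a (by simp)) (ih rfl fun x hx => hL x (List.mem_cons_of_mem _ hx))

theorem span_divisorProduct_mem {n : ℕ} {x : A.CH}
    (hx : x ∈ Submodule.span ℚ {y | A.IsDivisorProduct n y}) : x ∈ A.codim n :=
  (Submodule.span_le.2 fun _ hy => divisorProduct_mem hA hy) hx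

theorem NK_eigen {n : ℕ} {c : A.H} (hc : c ∈ NK A n) :
    A.frobH c = ((q ^ s : ℕ) : K) ^ n • c := by
  unfold NK at hc
  induction hc using Submodule.span_induction with
  | mem c hc =>
    obtain ⟨D, hD, rfl⟩ := hc
    exact hA.frob_cl (divisorProduct_mem hA hD)
  | zero => rw [map_zero, smul_zero]
  | add x y _ _ hx hy => rw [map_add, hx, hy, smul_add]
  | smul a x _ hx => rw [map_smul, hx, smul_comm]

section basis

variable (hQ : 1 < q ^ s) {r : ℕ} (b : Basis (Fin r) K A.H) (α : Fin r → K)
  (hb : ∀ t, A.frobH (b t) = α t • b t)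
  (h1 : ∀ t (c : ℤ), α t = ((q ^ s : ℕ) : K) ^ c →
    ∃ k : ℕ, α t = ((q ^ s : ℕ) : K) ^ k ∧ b t ∈ NK A k)

include hQ hb h1

/-- **The intersection pairing is nondegenerate.** -/
theorem NK_nondeg {n : ℕ} (hn : n ≤ A.dim) {c : A.H} (hc : c ∈ NK A n)
    (h : ∀ c' ∈ NK A (A.dim - n), A.tr (c * c') = 0) : c = 0 := by
  set Q : ℕ := q ^ s with hQdef
  have hQK : (Q : K) ≠ 0 := by
    have : Q ≠ 0 := by omega
    exact_mod_cast this
  have hbt : ∀ t, A.tr (c * b t) = 0 := by
    intro t
    by_cases ht : α t = (Q : K) ^ (A.dim - n)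
    · obtain ⟨m, hm, hbm⟩ := h1 t ((A.dim - n : ℕ) : ℤ) (by rw [zpow_natCast]; exact ht)
      have h2 : m = A.dim - n := by
        have h3 : ((Q ^ m : ℕ) : K) = ((Q ^ (A.dim - n) : ℕ) : K) := by
          push_cast
          rw [← hm, ht]
        exact Nat.pow_right_injective hQ (Nat.cast_injective h3)
      rw [h2] at hbm
      exact h _ hbm
    · have h2 := hA.tr_frob (c * b t)
      rw [map_mul, NK_eigen hA hc, hb, smul_mul_smul_comm, map_smul, smul_eq_mul] at h2
      have h3 : ((Q : K) ^ n * α t - (Q : K) ^ A.dim) * A.tr (c * b t) = 0 := by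
        rw [sub_mul, h2, sub_self]
      rcases mul_eq_zero.1 h3 with h4 | h4
      · exfalso
        apply ht
        have h5 : (Q : K) ^ n * (Q : K) ^ (A.dim - n) = (Q : K) ^ A.dim := by
          rw [← pow_add]
          congr 1
          omega
        rw [sub_eq_zero, ← h5] at h4
        exact mul_left_cancel₀ (pow_ne_zero _ hQK) h4
      · exact h4
  apply hA.nondeg
  intro y
  have h2 : y = ∑ t, b.repr y t • b t := (b.sum_repr y).symm
  rw [h2, Finset.mul_sum, map_sum]
  refine Finset.sum_eq_zero fun t _ => ?_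
  rw [mul_smul_comm, map_smul, hbt, smul_zero]

/-- The dual system in one codimension. -/
theorem exists_dual_one {n : ℕ} (hn : n ≤ A.dim) :
    ∃ (m : ℕ) (D E : Fin m → A.CH), (∀ t, A.IsDivisorProduct n (D t)) ∧
      (∀ t, E t ∈ Submodule.span ℚ {y | A.IsDivisorProduct (A.dim - n) y}) ∧
      (∀ t u, A.deg (D t * E u) = if t = u then 1 else 0) ∧
      NK A n ≤ Submodule.span K (Set.range fun t => A.cl (D t)) := by
  classical
  have := hA.finite
  obtain ⟨S, hS1, hS2, hS3⟩ := exists_linearIndependent K {c | ∃ x, A.IsDivisorProduct n x ∧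
    c = A.cl x}
  have hfin : S.Finite := hS3.setFinite
  have hft := hfin.fintype
  let e := Fintype.equivFin S
  have hD : ∀ t : Fin (Fintype.card S), ∃ x, A.IsDivisorProduct n x ∧
    (e.symm t : A.H) = A.cl x := fun t => hS1 (e.symm t).2
  choose D hDm hDcl using hD
  have hli : LinearIndependent K (fun t => A.cl (D t)) := by
    have h2 : (fun t => A.cl (D t)) = (fun x : S => (x : A.H)) ∘ e.symm := by
      funext t
      exact (hDcl t).symm
    rw [h2]
    exact hS3.comp _ e.symm.injective
  have hspan : NK A n ≤ Submodule.span K (Set.range fun t => A.cl (D t)) := by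
    unfold NK
    rw [← hS2]
    refine Submodule.span_mono ?_
    intro x hx
    refine ⟨e ⟨x, hx⟩, ?_⟩
    beta_reduce
    rw [← hDcl, Equiv.symm_apply_apply]
  let 𝒮 : Submodule ℚ A.CH := Submodule.span ℚ {y | A.IsDivisorProduct (A.dim - n) y}
  let ψ : 𝒮 →ₗ[ℚ] (Fin (Fintype.card S) → ℚ) :=
    LinearMap.pi fun t => A.deg ∘ₗ LinearMap.mulLeft ℚ (D t) ∘ₗ 𝒮.subtype
  have hψ : ∀ E t, ψ E t = A.deg (D t * E) := fun _ _ => rfl
  have hsurj : LinearMap.range ψ = ⊤ := by
    by_contra hne
    obtain ⟨φ, hf0, hf⟩ := Submodule.exists_le_ker_of_lt_top _ (lt_top_iff_ne_top.2 hne)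
    apply hf0
    set c : A.H := ∑ t, ((φ (Pi.single t 1) : ℚ) : K) • A.cl (D t) with hc
    set z : A.CH := ∑ t, φ (Pi.single t 1) • D t with hz
    have hcz : c = A.cl z := by
      rw [hc, hz, map_sum]
      exact Finset.sum_congr rfl fun t _ => (cl_smul _ _).symm
    have hcm : c ∈ NK A n :=
      Submodule.sum_mem _ fun t _ => Submodule.smul_mem _ _ (Submodule.subset_span
        ⟨D t, hDm t, rfl⟩)
    have hc0 : c = 0 := by
      refine NK_nondeg hA hQ b α hb h1 hn hcm ?_
      intro c' hc'
      unfold NK at hc'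
      induction hc' using Submodule.span_induction with
      | mem c' hc' =>
        obtain ⟨E, hE, rfl⟩ := hc'
        rw [hcz, ← map_mul, hA.tr_cl]
        have hE' : E ∈ 𝒮 := Submodule.subset_span hE
        have h4 : φ (ψ ⟨E, hE'⟩) = 0 := hf ⟨_, rfl⟩
        have h5 : A.deg (z * E) = φ (ψ ⟨E, hE'⟩) := by
          have h6 : ψ ⟨E, hE'⟩ = ∑ t, A.deg (D t * E) • Pi.single (M := fun _ => ℚ) t 1 := by
            funext t
            rw [hψ, Finset.sum_apply]
            simp [Pi.single_apply]
          rw [h6, map_sum, hz, Finset.sum_mul, map_sum]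
          refine Finset.sum_congr rfl fun t _ => ?_
          rw [smul_mul_assoc, map_smul, map_smul, smul_eq_mul, smul_eq_mul, mul_comm]
        rw [h5, h4, Rat.cast_zero]
      | zero => rw [mul_zero, map_zero]
      | add x y _ _ hx hy => rw [mul_add, map_add, hx, hy, add_zero]
      | smul a x _ hx => rw [mul_smul_comm, map_smul, hx, smul_zero]
    have h2 := Fintype.linearIndependent_iff.1 hli (fun t => ((φ (Pi.single t 1) : ℚ) : K))
      (by rw [← hc, hc0])
    ext t
    have h3 := h2 t
    have h4 : φ (Pi.single t 1) = 0 := by exact_mod_cast h3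
    simpa using h4
  have hE : ∀ u, ∃ E : 𝒮, ψ E = Pi.single u 1 := by
    intro u
    have h2 : (Pi.single u 1 : Fin (Fintype.card S) → ℚ) ∈ LinearMap.range ψ := by
      rw [hsurj]
      exact Submodule.mem_top
    exact h2
  choose E hE using hE
  refine ⟨Fintype.card S, D, fun u => E u, hDm, fun u => (E u).2, fun t u => ?_, hspan⟩
  rw [← hψ, hE, Pi.single_apply]

end basis

end Pool.Agent.Y156.L
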