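import Mathlib
import Pool.Agent.Y156.L.NK

/-!
# Dual systems of products of divisors
-/

set_option autoImplicit false
set_option linter.unusedSectionVars false

namespace Pool.Agent.Y156.L

open Polynomial Module

variable {K : Type} [Field K] [CharZero K] {A : AbelianData K}

/-- A dual system: classes `D j` of codimension `c j` and `E j` of complementary codimension with
`deg (D i · E j)` equal to `1` for `i = j` and to `0` otherwise. -/
structure IsDual (A : AbelianData K) {J : Type} (c : J → ℕ) (D E : J → A.CH) : Prop where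
  le : ∀ j, c j ≤ A.dim
  left : ∀ j, D j ∈ A.codim (c j)
  right : ∀ j, E j ∈ A.codim (A.dim - c j)
  eq : ∀ i, A.deg (D i * E i) = 1
  ne : ∀ i j, i ≠ j → A.deg (D i * E j) = 0

theorem IsDual.symm {J : Type} {c : J → ℕ} {D E : J → A.CH} (h : IsDual A c D E) :
    IsDual A (fun j => A.dim - c j) E D where
  le := fun j => Nat.sub_le _ _
  left := h.right
  right := fun j => by
    have h3 := h.le j
    rw [show A.dim - (A.dim - c j) = c j by omega]
    exact h.left j
  eq := fun i => by rw [mul_comm, h.eq]
  ne := fun i j hij => by rw [mul_comm, h.ne j i (Ne.symm hij)]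

variable {q s : ℕ} {I : Type} {f : I → ℤ[X]} (hA : IsAbelian A q s f)
  (hQ : 1 < q ^ s) {r : ℕ} (b : Basis (Fin r) K A.H) (α : Fin r → K)
  (hb : ∀ t, A.frobH (b t) = α t • b t)
  (h1 : ∀ t (c : ℤ), α t = ((q ^ s : ℕ) : K) ^ c →
    ∃ k : ℕ, α t = ((q ^ s : ℕ) : K) ^ k ∧ b t ∈ NK A k)

include hA

theorem NK_top {n : ℕ} (h2 : A.dim < n) : NK A n ≤ ⊥ := by
  refine Submodule.span_le.2 ?_
  rintro _ ⟨D', hD', rfl⟩
  rw [hA.top h2 (divisorProduct_mem hA hD'), map_zero]
  exact Submodule.zero_mem _

include hQ hb h1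

/-- **The dual system.** -/
theorem exists_dual : ∃ (J : Type) (_ : Fintype J) (c : J → ℕ) (D E : J → A.CH),
    IsDual A c D E ∧ (∀ j, A.IsDivisorProduct (c j) (D j)) ∧
    (∀ j, E j ∈ Submodule.span ℚ {y | A.IsDivisorProduct (A.dim - c j) y}) ∧
    ∀ n, NK A n ≤ Submodule.span K {a | ∃ j, c j = n ∧ a = A.cl (D j)} := by
  classical
  choose m D E hD hE hDE hspan using fun n : Fin (A.dim + 1) =>
    exists_dual_one hA hQ b α hb h1 (n := n) (by omega)
  have hEg : ∀ (n : Fin (A.dim + 1)) (t : Fin (m n)), E n t ∈ A.codim (A.dim - (n : ℕ)) :=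
    fun n t => span_divisorProduct_mem hA (hE n t)
  refine ⟨Σ n : Fin (A.dim + 1), Fin (m n), inferInstance, fun j => j.1, fun j => D j.1 j.2,
    fun j => E j.1 j.2, ⟨fun j => by omega, fun j => divisorProduct_mem hA (hD j.1 j.2),
    fun j => hEg _ _, fun j => by rw [hDE, if_pos rfl], fun i j hij => ?_⟩,
    fun j => hD j.1 j.2, fun j => hE j.1 j.2, fun n => ?_⟩
  · have hDi := divisorProduct_mem hA (hD i.1 i.2)
    by_cases h2 : i.1 = j.1
    · obtain ⟨n, t⟩ := i
      obtain ⟨n', u⟩ := j
      dsimp only at h2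
      subst h2
      rw [hDE, if_neg]
      intro h3
      dsimp only at h3
      subst h3
      exact hij rfl
    · refine hA.deg_eq_zero ?_ (hA.mul_mem hDi (hEg j.1 j.2))
      intro h3
      apply h2
      apply Fin.ext
      omega
  · rcases Nat.lt_or_ge A.dim n with h2 | h2
    · exact (NK_top hA h2).trans bot_le
    · refine (hspan ⟨n, by omega⟩).trans (Submodule.span_mono ?_)
      rintro _ ⟨t, rfl⟩
      exact ⟨⟨⟨n, by omega⟩, t⟩, rfl, rfl⟩

/-- The classes of the dual system span. -/
theorem span_dual {J : Type} [Fintype J] {c : J → ℕ} {D E : J → A.CH} (h : IsDual A c D E)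
    (hE : ∀ j, E j ∈ Submodule.span ℚ {y | A.IsDivisorProduct (A.dim - c j) y})
    (hN : ∀ n, NK A n ≤ Submodule.span K {a | ∃ j, c j = n ∧ a = A.cl (D j)}) (n : ℕ) :
    NK A n ≤ Submodule.span K {a | ∃ j, A.dim - c j = n ∧ a = A.cl (E j)} := by
  classical
  rcases Nat.lt_or_ge A.dim n with h2 | hn
  · exact (NK_top hA h2).trans bot_le
  have hEN : ∀ j, A.cl (E j) ∈ NK A (A.dim - c j) := by
    have key : ∀ (l : ℕ) (z : A.CH), z ∈ Submodule.span ℚ {y | A.IsDivisorProduct l y} →
        A.cl z ∈ NK A l := by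
      intro l z hz
      induction hz using Submodule.span_induction with
      | mem z hz => exact Submodule.subset_span ⟨z, hz, rfl⟩
      | zero => rw [map_zero]; exact Submodule.zero_mem _
      | add x y _ _ hx hy => rw [map_add]; exact Submodule.add_mem _ hx hy
      | smul c x _ hx => rw [cl_smul]; exact Submodule.smul_mem _ _ hx
    exact fun j => key _ _ (hE j)
  refine Submodule.span_le.2 ?_
  rintro _ ⟨G, hG, rfl⟩
  set S : Finset J := Finset.univ.filter fun j => A.dim - c j = n with hSdef
  set w : A.CH := ∑ j ∈ S, A.deg (D j * G) • E j with hw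
  have hwN : A.cl w ∈ NK A n := by
    rw [hw, map_sum]
    refine Submodule.sum_mem _ fun j hj => ?_
    rw [cl_smul]
    have h2 : A.dim - c j = n := (Finset.mem_filter.1 hj).2
    have h3 := hEN j
    rw [h2] at h3
    exact Submodule.smul_mem _ _ h3
  have hz : A.cl (G - w) = 0 := by
    refine NK_nondeg hA hQ b α hb h1 hn ?_ ?_
    · rw [map_sub]
      exact Submodule.sub_mem _ (Submodule.subset_span ⟨G, hG, rfl⟩) hwN
    · intro c' hc'
      have hc2 := hN _ hc'
      clear hc'
      induction hc2 using Submodule.span_induction with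
      | mem c' hc' =>
        obtain ⟨l, hl, rfl⟩ := hc'
        rw [← map_mul, hA.tr_cl]
        have hlS : l ∈ S := by
          rw [hSdef, Finset.mem_filter]
          have := h.le l
          exact ⟨Finset.mem_univ _, by omega⟩
        have h3 : A.deg ((G - w) * D l) = 0 := by
          have hdE : ∀ j, A.deg (E j * D l) = if j = l then 1 else 0 := by
            intro j
            rw [mul_comm]
            by_cases hjl : j = l
            · subst hjl
              rw [h.eq, if_pos rfl]
            · rw [h.ne l j (Ne.symm hjl), if_neg hjl]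
          rw [sub_mul, map_sub, hw, Finset.sum_mul, map_sum,
            Finset.sum_congr rfl fun j _ => by
              rw [smul_mul_assoc, map_smul, hdE j, smul_eq_mul, mul_ite, mul_one, mul_zero],
            Finset.sum_ite_eq' S l, if_pos hlS, mul_comm G (D l), sub_self]
        rw [h3, Rat.cast_zero]
      | zero => rw [mul_zero, map_zero]
      | add x y _ _ hx hy => rw [mul_add, map_add, hx, hy, add_zero]
      | smul a x _ hx => rw [mul_smul_comm, map_smul, hx, smul_zero]
  have hfinal : A.cl G = A.cl w := by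
    rw [map_sub, sub_eq_zero] at hz
    exact hz
  change A.cl G ∈ _
  rw [hfinal, hw, map_sum]
  refine Submodule.sum_mem _ fun j hj => ?_
  rw [cl_smul]
  exact Submodule.smul_mem _ _ (Submodule.subset_span ⟨j, (Finset.mem_filter.1 hj).2, rfl⟩)

end Pool.Agent.Y156.L
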