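import Mathlib
import Pool.Agent.Y156.L.Dual
import Pool.Agent.W484.CH.Fin

/-!
# The good basis of the cohomology
-/

set_option autoImplicit false
set_option linter.unusedSectionVars false

namespace Pool.Agent.Y156.L

open Module Polynomial Pool.Agent.W484.TB Pool.Agent.W484.HS Pool.Agent.W521.Frob
  Pool.Agent.W521.Count Pool.Agent.W521.Bad Pool.Agent.W521.Descent Pool.Agent.W521.Density

variable {K : Type} [Field K] [CharZero K] {A : AbelianData K}

variable {I : Type} [Finite I] (g : I → ℕ) (E : IntermediateField ℚ ℂ) [FiniteDimensional ℚ E]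
  {q : ℕ} (hq : 1 < q) (r : ℕ) (hr : ∀ i, r < g i)
  (x : (Σ i, Fin (g i)) → ℤ) (hx : GoodU (splitPrimes E) g q x)

include hq hr hx in
/-- **Existence of a good basis.** -/
theorem exists_good_basis {s : ℕ} (hA : IsAbelian A q s (fun i => weil q (polys g x i))) :
    ∃ (n : ℕ) (b : Basis (Fin n) K A.H) (α : Fin n → K),
      (∀ t, A.frobH (b t) = α t • b t) ∧ (∀ t, IsIntegral ℚ (α t)) ∧ (∀ t, α t ≠ 0) ∧
      ∀ (χ : ℚ[X]), χ ≠ 0 → RankLEOver E r {ρ : ℂ | aeval ρ χ = 0} → ∀ ρ : K, aeval ρ χ = 0 →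
        ∀ t (c : ℤ), α t * ρ = ((q ^ s : ℕ) : K) ^ c →
          ∃ l : ℕ, α t = ((q ^ s : ℕ) : K) ^ l ∧ b t ∈ NK A l := by
  have hfin := hA.finite
  have hs := hA.pos
  have hq0 : q ≠ 0 := by omega
  let val : {z : K // ∃ i, aeval z (weil q (polys g x i)) = 0} → K := fun z => (z : K) ^ s
  have hU : Submodule.span K {v : A.H | v ∈ A.H1 ∧ ∃ y, A.frobH v = val y • v} = A.H1 := by
    refine Eq.trans ?_ hA.spanned
    congr 1
    ext v
    constructor
    · rintro ⟨h1, ⟨z, i, hz⟩, h2⟩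
      exact ⟨h1, i, z, hz, h2⟩
    · rintro ⟨h1, i, z, hz, h2⟩
      exact ⟨h1, ⟨z, i, hz⟩, h2⟩
  obtain ⟨n, b, α, hb⟩ := Pool.Agent.W484.CH.exists_basis A.frobH val A.H1 hU hA.generated
  have hQ : ((q ^ s : ℕ) : K) = (q : K) ^ s := by push_cast; rfl
  have hQ0 : (q : K) ^ s ≠ 0 := pow_ne_zero _ (by exact_mod_cast hq0)
  refine ⟨n, b, α, fun t => (hb t).1, fun t => ?_, fun t => ?_, ?_⟩
  · obtain ⟨-, L, -, -, hL⟩ := hb t
    rw [hL]
    clear hL
    induction L with
    | nil => simpa using isIntegral_one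
    | cons a L ih =>
      rw [List.map_cons, List.prod_cons]
      refine IsIntegral.mul ?_ ih
      obtain ⟨i, hi⟩ := a.2.2
      have h1 : IsIntegral ℤ (a.2 : K) := ⟨weil q (polys g x i),
        weil_monic q (mkPoly_monic (g i) _), hi⟩
      exact (h1.tower_top (A := ℚ)).pow s
  · intro h0
    refine b.ne_zero t (hA.nondeg _ fun a => ?_)
    have h1 := hA.tr_frob (b t * a)
    rw [map_mul, (hb t).1, h0, zero_smul, zero_mul, map_zero] at h1
    exact (mul_eq_zero.1 h1.symm).resolve_left (pow_ne_zero _ (by rw [hQ]; exact hQ0))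
  · intro χ hχ hrank ρ hρ t c hc
    obtain ⟨-, L, hL1, hL2, hL3⟩ := hb t
    have hpair := exactPair_field_over g E hq0 r hr x hx s hs χ hχ hrank ρ hρ
    have h1 := Pool.Agent.W484.CH.list_graded A.frobH val ((q : K) ^ s) ρ hQ0 hpair (NK A)
      one_mem_NK
      (fun a ha l b hb => by
        rw [add_comm l 1]
        exact mul_mem_NK ha hb)
      (A.H1 : Set A.H) (fun a ha b hb => hA.anticomm a ha b hb)
      (fun a ha b hb y y' h2 h3 h4 => by
        apply mem_NK_one
        refine hA.tate (a * b) (Submodule.mul_mem_mul ha hb) ?_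
        rw [map_mul, h2, h3, smul_mul_smul_comm, h4, hQ])
      L.length c 1 one_pos L rfl hL1 (by rw [pow_one, pow_one, ← hL3, ← hQ]; exact hc)
    obtain ⟨l, -, h2, h3⟩ := h1
    refine ⟨l, ?_, ?_⟩
    · rw [hL3, h2, hQ]
    · rw [hL2]
      exact h3

/-- The polynomial with the roots `μ / ρ`, `ρ` the roots of `χ`. -/
noncomputable def rev (χ : ℚ[X]) (μ : ℚ) : ℚ[X] :=
  ∑ l ∈ Finset.range (χ.natDegree + 1), Polynomial.C (χ.coeff l * μ ^ l) * X ^ (χ.natDegree - l)

theorem aeval_rev {K : Type*} [Field K] [CharZero K] (χ : ℚ[X]) (μ : ℚ) {α : K} (hα : α ≠ 0) :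
    aeval α (rev χ μ) = α ^ χ.natDegree * aeval ((μ : K) / α) χ := by
  rw [rev, map_sum, aeval_eq_sum_range, Finset.mul_sum]
  refine Finset.sum_congr rfl fun l hl => ?_
  have hl' : l ≤ χ.natDegree := by
    have := Finset.mem_range.1 hl
    omega
  rw [map_mul, aeval_C, map_pow, aeval_X, Algebra.smul_def, map_mul, map_pow, div_pow,
    eq_ratCast, eq_ratCast]
  have h1 : α ^ χ.natDegree = α ^ (χ.natDegree - l) * α ^ l := by
    rw [← pow_add]
    congr 1
    omega
  rw [h1]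
  field_simp

theorem aeval_rev_op {M : Type*} [AddCommGroup M] [Module ℚ M] (F ψ : Module.End ℚ M)
    (V : Submodule ℚ M) (μ : ℚ) (hV : ∀ m ∈ V, ψ m ∈ V) (hF : ∀ m ∈ V, F (ψ m) = μ • m)
    (χ : ℚ[X]) (hχ : ∀ m ∈ V, aeval ψ χ m = 0) {m : M} (hm : m ∈ V) :
    aeval F (rev χ μ) m = 0 := by
  have hψ : ∀ l : ℕ, (ψ ^ l) m ∈ V := by
    intro l
    induction l with
    | zero => simpa using hm
    | succ l ih =>
      rw [pow_succ', Module.End.mul_apply]
      exact hV _ ih
  have hFl : ∀ l : ℕ, (F ^ l) ((ψ ^ l) m) = μ ^ l • m := by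
    intro l
    induction l with
    | zero => simp
    | succ l ih =>
      rw [pow_succ F, Module.End.mul_apply, pow_succ' ψ, Module.End.mul_apply, hF _ (hψ l),
        map_smul, ih, smul_smul, pow_succ']
  have h1 : (F ^ χ.natDegree) (aeval ψ χ m) = 0 := by rw [hχ m hm, map_zero]
  rw [← h1, rev, map_sum, LinearMap.sum_apply, aeval_eq_sum_range, LinearMap.sum_apply, map_sum]
  refine Finset.sum_congr rfl fun l hl => ?_
  have hl' : l ≤ χ.natDegree := by
    have := Finset.mem_range.1 hl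
    omega
  have h2 : F ^ χ.natDegree = F ^ (χ.natDegree - l) * F ^ l := by
    rw [← pow_add]
    congr 1
    omega
  rw [LinearMap.smul_apply, map_smul, h2, Module.End.mul_apply, hFl, map_smul, map_mul, aeval_C,
    map_pow, aeval_X, Module.End.mul_apply, smul_smul, Module.algebraMap_end_apply]

theorem stable_of {M : Type*} [AddCommGroup M] [Module ℚ M] (F ψ : Module.End ℚ M)
    (V : Submodule ℚ M) (μ : ℚ) (hV : ∀ m ∈ V, ψ m ∈ V) (hF : ∀ m ∈ V, F (ψ m) = μ • m)
    (χ : ℚ[X]) (h0 : χ.coeff 0 ≠ 0) (hχ : ∀ m ∈ V, aeval ψ χ m = 0) {m : M} (hm : m ∈ V) :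
    F m ∈ V := by
  have haV : ∀ (S : ℚ[X]), aeval ψ S m ∈ V := by
    intro S
    have hpow : ∀ l : ℕ, (ψ ^ l) m ∈ V := by
      intro l
      induction l with
      | zero => simpa using hm
      | succ l ih =>
        rw [pow_succ', Module.End.mul_apply]
        exact hV _ ih
    rw [aeval_eq_sum_range, LinearMap.sum_apply]
    exact Submodule.sum_mem _ fun l _ => Submodule.smul_mem _ _ (hpow l)
  have h1 : m = (-(χ.coeff 0)⁻¹) • ψ (aeval ψ χ.divX m) := by
    have h2 := hχ m hm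
    rw [← divX_mul_X_add χ, mul_comm χ.divX, map_add, aeval_C, map_mul, aeval_X,
      LinearMap.add_apply, Module.End.mul_apply, Module.algebraMap_end_apply] at h2
    have h3 : ψ (aeval ψ χ.divX m) = -(χ.coeff 0 • m) := eq_neg_of_add_eq_zero_left h2
    rw [h3, smul_neg, neg_smul, neg_neg, smul_smul, inv_mul_cancel₀ h0, one_smul]
  have h4 : F m = (-(χ.coeff 0)⁻¹) • (μ • aeval ψ χ.divX m) := by
    conv_lhs => rw [h1]
    rw [map_smul, hF _ (haV _)]
  rw [h4]
  exact Submodule.smul_mem _ _ (Submodule.smul_mem _ _ (haV _))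

theorem coeff_zero_ne {E : IntermediateField ℚ ℂ} {r : ℕ} {χ : ℚ[X]}
    (h : RankLEOver E r {ρ : ℂ | aeval ρ χ = 0}) : χ.coeff 0 ≠ 0 := by
  intro h0
  refine zero_not_rank_over h ?_
  change aeval (0 : ℂ) χ = 0
  rw [aeval_def, eval₂_at_zero, h0, map_zero]

/-- The polynomial which maps the cohomology to the part generated by divisors. -/
theorem exists_kill {r : ℕ} (b : Basis (Fin r) K A.H) (α : Fin r → K)
    (hb : ∀ t, A.frobH (b t) = α t • b t) (hα : ∀ t, IsIntegral ℚ (α t))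
    (hα0 : ∀ t, α t ≠ 0) (χ : ℚ[X]) (μ : ℚ)
    (hgood : ∀ ρ : K, aeval ρ χ = 0 → ∀ t, α t * ρ = (μ : K) → ∃ l : ℕ, b t ∈ NK A l) :
    ∃ P : ℚ[X], IsCoprime P (rev χ μ) ∧
      ∀ w : A.H, aeval (A.frobH.toLinearMap : Module.End K A.H) (P.map (algebraMap ℚ K)) w ∈
        ⨆ n, NK A n := by
  classical
  set S : Finset (Fin r) := Finset.univ.filter fun t => ¬ ∃ l : ℕ, b t ∈ NK A l with hS
  refine ⟨∏ t ∈ S, minpoly ℚ (α t), ?_, fun w => ?_⟩
  · refine IsCoprime.prod_left fun t ht => ?_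
    rw [hS, Finset.mem_filter] at ht
    rw [(minpoly.irreducible (hα t)).coprime_iff_not_dvd]
    intro hdvd
    have h1 := aeval_eq_zero_of_dvd_aeval_eq_zero hdvd (minpoly.aeval ℚ (α t))
    rw [aeval_rev χ μ (hα0 t)] at h1
    have h2 := (mul_eq_zero.1 h1).resolve_left (pow_ne_zero _ (hα0 t))
    exact ht.2 (hgood _ h2 t (mul_div_cancel₀ _ (hα0 t)))
  · rw [← b.sum_repr w, map_sum]
    refine Submodule.sum_mem _ fun t _ => ?_
    rw [map_smul]
    refine Submodule.smul_mem _ _ ?_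
    have h1 : (A.frobH.toLinearMap : Module.End K A.H) (b t) = α t • b t := hb t
    have h2 : ∀ P : ℚ[X], aeval (A.frobH.toLinearMap : Module.End K A.H)
        (P.map (algebraMap ℚ K)) (b t) = (aeval (α t) P) • b t := by
      intro P
      have h3 : ∀ l : ℕ, ((A.frobH.toLinearMap : Module.End K A.H) ^ l) (b t) =
          (α t) ^ l • b t := by
        intro l
        induction l with
        | zero => simp
        | succ l ih =>
          rw [pow_succ', Module.End.mul_apply, ih, map_smul, h1, smul_smul, pow_succ]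
      rw [aeval_def, eval₂_map, aeval_def, eval₂_eq_sum_range, eval₂_eq_sum_range,
        LinearMap.sum_apply, Finset.sum_smul]
      refine Finset.sum_congr rfl fun l _ => ?_
      rw [Module.End.mul_apply, h3, map_smul, RingHom.comp_apply, Module.algebraMap_end_apply,
        smul_smul, mul_comm]
    rw [h2]
    by_cases ht : ∃ l : ℕ, b t ∈ NK A l
    · obtain ⟨l, hl⟩ := ht
      exact Submodule.smul_mem _ _ (Submodule.mem_iSup_of_mem l hl)
    · have h4 : aeval (α t) (∏ t ∈ S, minpoly ℚ (α t)) = 0 := by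
        rw [map_prod]
        refine Finset.prod_eq_zero (i := t) ?_ (minpoly.aeval ℚ (α t))
        rw [hS, Finset.mem_filter]
        exact ⟨Finset.mem_univ _, ht⟩
      rw [h4, zero_smul]
      exact Submodule.zero_mem _

end Pool.Agent.Y156.L
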