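import Mathlib
import Pool.Agent.Y156.L.Good
import Pool.Agent.Y156.L.Props

/-!
# The Kunneth formula
-/

set_option autoImplicit false
set_option linter.unusedSectionVars false

namespace Pool.Agent.Y156.L

open Module Polynomial Pool.Agent.W484.TB Pool.Agent.W484.HS Pool.Agent.W521.Frob
  Pool.Agent.W521.Count Pool.Agent.W521.Bad Pool.Agent.W521.Descent Pool.Agent.W521.Density

variable {K : Type} [Field K] [CharZero K] {A : AbelianData K} {q s : ℕ} {I : Type}
  {f : I → ℤ[X]}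

section proj

variable {J : Type} [Fintype J] {c : J → ℕ} {D E : J → A.CH}

/-- The projector. -/
noncomputable def proj (D E : J → A.CH) : A.Corr := ∑ j, A.corr (E j) (D j)

theorem act_proj_mix (hA : IsAbelian A q s f) (h : IsDual A c D E)
    (hN : ∀ n, NK A n ≤ Submodule.span K {a | ∃ j, c j = n ∧ a = A.cl (D j)}) {w : A.H}
    (hw : w ∈ ⨆ n, NK A n) : A.act (proj D E) w = w := by
  classical
  have h1 : ∀ l, A.act (proj D E) (A.cl (D l)) = A.cl (D l) := by
    intro l
    rw [proj, map_sum, LinearMap.sum_apply, Finset.sum_eq_single l]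
    · rw [hA.act_corr (Nat.sub_add_cancel (h.le l)) (h.right l) (h.left l), ← map_mul, hA.tr_cl,
        mul_comm, h.eq, Rat.cast_one, one_smul]
    · intro j _ hj
      rw [hA.act_corr (Nat.sub_add_cancel (h.le j)) (h.right j) (h.left j), ← map_mul, hA.tr_cl,
        mul_comm, h.ne l j (Ne.symm hj), Rat.cast_zero, zero_smul]
    · intro h2
      exact absurd (Finset.mem_univ _) h2
  have h2 : (⨆ n, NK A n) ≤ LinearMap.ker (A.act (proj D E) - 1) := by
    refine iSup_le fun n => (hN n).trans (Submodule.span_le.2 ?_)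
    rintro _ ⟨j, -, rfl⟩
    change A.cl (D j) ∈ LinearMap.ker (A.act (proj D E) - 1)
    rw [LinearMap.mem_ker, LinearMap.sub_apply, h1, Module.End.one_apply, sub_self]
  have h3 := h2 hw
  rw [LinearMap.mem_ker, LinearMap.sub_apply, Module.End.one_apply, sub_eq_zero] at h3
  exact h3

theorem act_aeval (hA : IsAbelian A q s f) (P : ℚ[X]) :
    A.act (aeval A.frob P) =
      aeval (A.frobH.toLinearMap : Module.End K A.H) (P.map (algebraMap ℚ K)) := by
  have h1 : A.act A.frob = (A.frobH.toLinearMap : Module.End K A.H) := by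
    ext a
    exact hA.act_frob a
  have h2 : (A.act).comp (algebraMap ℚ A.Corr) =
      (algebraMap K (Module.End K A.H)).comp (algebraMap ℚ K) := Subsingleton.elim _ _
  rw [aeval_def, hom_eval₂, h1, h2, aeval_def, eval₂_map]

theorem dualpair {Q : ℕ} {T : RelData A} (hT : IsRel Q T) (h : IsDual A c D E) (i j : J)
    (n : T.N) [Decidable (i = j)] :
    T.pair (E j) (T.times (D i) n) = if i = j then n else 0 := by
  rw [hT.pair_times, mul_comm]
  by_cases hij : i = j
  · subst hij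
    rw [h.eq, one_smul, if_pos rfl]
  · rw [h.ne i j hij, zero_smul, if_neg hij]

theorem pair_sum {Q : ℕ} {T : RelData A} (hT : IsRel Q T) (h : IsDual A c D E) (j : J)
    (z : J → T.N) : T.pair (E j) (∑ i, T.times (D i) (z i)) = z j := by
  classical
  rw [map_sum, Finset.sum_congr rfl fun i _ => dualpair hT h i j (z i), Finset.sum_ite_eq',
    if_pos (Finset.mem_univ _)]

theorem act_proj {Q : ℕ} {T : RelData A} (hT : IsRel Q T) (h : IsDual A c D E) (m : T.M) :
    T.act (proj D E) m = ∑ j, T.times (D j) (T.pair (E j) m) := by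
  rw [proj, map_sum, LinearMap.sum_apply]
  exact Finset.sum_congr rfl fun j _ =>
    hT.act_corr m (Nat.sub_add_cancel (h.le j)) (h.right j) (h.left j)

theorem aeval_frob_times {Q : ℕ} {T : RelData A} (hT : IsRel Q T) {n : ℕ} {b : A.CH}
    (hb : b ∈ A.codim n) (z : T.N) (P : ℚ[X]) :
    aeval (T.act A.frob) P (T.times b z) = P.eval ((Q : ℚ) ^ n) • T.times b z := by
  have h1 : ∀ l : ℕ, ((T.act A.frob) ^ l) (T.times b z) = ((Q : ℚ) ^ n) ^ l • T.times b z := by
    intro l
    induction l with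
    | zero => rw [pow_zero, pow_zero, one_smul]; rfl
    | succ l ih =>
      rw [pow_succ', Module.End.mul_apply, ih, map_smul, hT.act_frob_times z hb, smul_smul,
        pow_succ]
  rw [aeval_eq_sum_range, LinearMap.sum_apply, eval_eq_sum_range, Finset.sum_smul]
  refine Finset.sum_congr rfl fun l _ => ?_
  rw [LinearMap.smul_apply, h1, smul_smul]

/-- **The core.** -/
theorem rel_core (hA : IsAbelian A q s f) {Q : ℕ} {T : RelData A} (hT : IsRel Q T)
    (h : IsDual A c D E) (P R : ℚ[X]) (hPR : IsCoprime P R)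
    (hkill : ∀ w : A.H, A.act (proj D E) (aeval (A.frobH.toLinearMap : Module.End K A.H)
      (P.map (algebraMap ℚ K)) w) = aeval (A.frobH.toLinearMap : Module.End K A.H)
        (P.map (algebraMap ℚ K)) w)
    (V : Submodule ℚ T.M) (hV : ∀ m ∈ V, T.act A.frob m ∈ V)
    (hR : ∀ m ∈ V, aeval (T.act A.frob) R m = 0) {m : T.M} (hm : m ∈ V) :
    m = ∑ j, T.times (D j) (T.pair (E j) m) := by
  set F := T.act A.frob with hF
  set Θ : A.Corr := (1 - proj D E) * aeval A.frob P with hΘ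
  have hΘ0 : A.act Θ = 0 := by
    ext w
    rw [hΘ, map_mul, map_sub, map_one, Module.End.mul_apply, act_aeval hA, LinearMap.sub_apply,
      Module.End.one_apply, hkill, sub_self, LinearMap.zero_apply]
  obtain ⟨n, hn⟩ := hA.nilpotent Θ hΘ0
  -- the operator `Θ`
  have hΘm : ∀ y : T.M, T.act Θ y = aeval F P y - T.act (proj D E) (aeval F P y) := by
    intro y
    rw [hΘ, map_mul, map_sub, map_one, Module.End.mul_apply, LinearMap.sub_apply,
      Module.End.one_apply, aeval_algHom_apply]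
  -- `Θ` kills the image of the projector
  have hΘp : ∀ y : T.M, T.act Θ (T.act (proj D E) y) = 0 := by
    intro y
    have h4 : aeval F P (T.act (proj D E) y) = ∑ j, T.times (D j)
        (P.eval ((Q : ℚ) ^ c j) • T.pair (E j) y) := by
      rw [act_proj hT h, map_sum]
      refine Finset.sum_congr rfl fun j _ => ?_
      rw [map_smul]
      exact aeval_frob_times hT (h.left j) _ P
    rw [hΘm, h4, sub_eq_zero, act_proj hT h]
    refine Finset.sum_congr rfl fun j _ => ?_
    rw [pair_sum hT h]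
  obtain ⟨a, b, hab⟩ := hPR
  have haV : ∀ (S : ℚ[X]) (y : T.M), y ∈ V → aeval F S y ∈ V := by
    intro S y hy
    have hpow : ∀ l : ℕ, (F ^ l) y ∈ V := by
      intro l
      induction l with
      | zero => simpa using hy
      | succ l ih =>
        rw [pow_succ', Module.End.mul_apply]
        exact hV _ ih
    rw [aeval_eq_sum_range, LinearMap.sum_apply]
    exact Submodule.sum_mem _ fun l _ => Submodule.smul_mem _ _ (hpow l)
  have hdiv : ∀ y ∈ V, aeval F P (aeval F a y) = y := by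
    intro y hy
    have h5 := congrArg (fun S => aeval F S y) hab
    simp only [map_add, map_mul, map_one, LinearMap.add_apply, Module.End.mul_apply,
      Module.End.one_apply] at h5
    rw [hR y hy, map_zero, add_zero] at h5
    rw [← Module.End.mul_apply, ← map_mul, mul_comm, map_mul, Module.End.mul_apply]
    exact h5
  have hpow : ∀ (l : ℕ) (y : T.M), y ∈ V → ∃ y', y - T.act (proj D E) y =
      ((T.act Θ) ^ l) y' := by
    intro l
    induction l with
    | zero =>
      intro y _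
      exact ⟨_, by rw [pow_zero, Module.End.one_apply]⟩
    | succ l ih =>
      intro y hy
      obtain ⟨y', hy'⟩ := ih (aeval F a y) (haV a y hy)
      refine ⟨y', ?_⟩
      rw [pow_succ', Module.End.mul_apply, ← hy', map_sub, hΘp, sub_zero, hΘm, hdiv y hy]
  obtain ⟨y', hy'⟩ := hpow n m hm
  rw [← map_pow, hn, map_zero, LinearMap.zero_apply, sub_eq_zero, act_proj hT h] at hy'
  exact hy'

end proj

/-- The elements on which Frobenius acts as `Q ^ j`. -/
noncomputable def invSub (T : RelData A) (Q : ℕ) (i j : ℤ) : Submodule ℚ T.M where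
  carrier := {m | m ∈ T.grM i j ∧ T.act A.frob (T.frobM m) = (Q : ℚ) ^ j • m}
  zero_mem' := ⟨Submodule.zero_mem _, by rw [map_zero, map_zero, smul_zero]⟩
  add_mem' := fun ha hb =>
    ⟨Submodule.add_mem _ ha.1 hb.1, by rw [map_add, map_add, ha.2, hb.2, smul_add]⟩
  smul_mem' := fun c _ ha =>
    ⟨Submodule.smul_mem _ _ ha.1, by rw [map_smul, map_smul, ha.2, smul_comm]⟩

theorem mem_invSub {T : RelData A} {Q : ℕ} {i j : ℤ} {m : T.M} :
    m ∈ invSub T Q i j ↔ T.InvM Q i j m := Iff.rfl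

theorem inv_iff {Q : ℕ} {T : RelData A} {i j : ℤ} {m : T.M} :
    T.InvM Q i j m ↔ m ∈ T.grM i j ∧ T.act A.frob (T.frobM m) = (Q : ℚ) ^ j • m := Iff.rfl

theorem invN_iff {Q : ℕ} {T : RelData A} {i j : ℤ} {n : T.N} :
    T.InvN Q i j n ↔ n ∈ T.grN i j ∧ T.frobN n = (Q : ℚ) ^ j • n := Iff.rfl

theorem inv_frob {Q : ℕ} {T : RelData A} (hT : IsRel Q T) {i j : ℤ} {m : T.M}
    (hm : T.InvM Q i j m) : T.InvM Q i j (T.frobM m) := by
  rw [inv_iff] at hm ⊢
  refine ⟨hT.frob_mem hm.1, ?_⟩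
  rw [← hT.frob_act, hm.2, map_smul]

theorem inv_times {Q : ℕ} (hQ : Q ≠ 0) {T : RelData A} (hT : IsRel Q T) {i j : ℤ} {n : T.N}
    {c : ℕ} {b : A.CH} (hb : b ∈ A.codim c) (hn : T.InvN Q i j n) :
    T.InvM Q (i + 2 * c) (j + c) (T.times b n) := by
  have hQ0 : (Q : ℚ) ≠ 0 := by exact_mod_cast hQ
  rw [invN_iff] at hn
  rw [inv_iff]
  refine ⟨hT.times_mem hb hn.1, ?_⟩
  rw [hT.frob_times, hn.2, map_smul, map_smul, hT.act_frob_times n hb, smul_smul,
    zpow_add₀ hQ0, zpow_natCast]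

section

variable {J : Type} [Fintype J] {c : J → ℕ} {D E : J → A.CH}

theorem inv_pair {Q : ℕ} (hQ : Q ≠ 0) {T : RelData A} (hT : IsRel Q T) (h : IsDual A c D E)
    {i j : ℤ} {m : T.M} (hm : T.InvM Q i j m)
    (hexp : m = ∑ t, T.times (D t) (T.pair (E t) m)) (t : J) :
    T.InvN Q (i - 2 * c t) (j - c t) (T.pair (E t) m) := by
  have hQ0 : (Q : ℚ) ≠ 0 := by exact_mod_cast hQ
  rw [inv_iff] at hm
  rw [invN_iff]
  refine ⟨hT.pair_mem (by have := h.le t; omega) (h.right t) hm.1, ?_⟩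
  have h1 : T.act A.frob (T.frobM m) = ∑ l, T.times (D l)
      ((Q : ℚ) ^ c l • T.frobN (T.pair (E l) m)) := by
    conv_lhs => rw [hexp]
    rw [map_sum, map_sum]
    refine Finset.sum_congr rfl fun l _ => ?_
    rw [hT.frob_times, hT.act_frob_times _ (h.left l), map_smul]
  have h2 := congrArg (T.pair (E t)) h1
  rw [pair_sum hT h, hm.2, map_smul] at h2
  rw [zpow_sub₀ hQ0, zpow_natCast, div_eq_inv_mul, mul_smul, h2, smul_smul,
    inv_mul_cancel₀ (pow_ne_zero _ hQ0), one_smul]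

/-- The Kunneth formula. -/
theorem kunneth_of {Q : ℕ} (hQ : Q ≠ 0) {T : RelData A} (hT : IsRel Q T) (h : IsDual A c D E)
    (hexp : ∀ (i j : ℤ) (m : T.M), T.InvM Q i j m →
      m = ∑ t, T.times (D t) (T.pair (E t) m)) : T.Kunneth Q c D := by
  intro i j m hm
  have h0 := hexp i j m hm
  refine ⟨fun t => T.pair (E t) m, ⟨fun t => inv_pair hQ hT h hm h0 t, h0⟩, ?_⟩
  rintro z ⟨-, hz⟩
  funext t
  rw [hz]
  exact (pair_sum hT h t z).symm

end

/-- There are nonzero classes in all codimensions. -/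
theorem exists_codim (hA : IsAbelian A q s f) (hQ : 1 < q ^ s) {r : ℕ} (b : Basis (Fin r) K A.H)
    (α : Fin r → K) (hb : ∀ t, A.frobH (b t) = α t • b t)
    (h1 : ∀ t (c : ℤ), α t = ((q ^ s : ℕ) : K) ^ c →
      ∃ k : ℕ, α t = ((q ^ s : ℕ) : K) ^ k ∧ b t ∈ NK A k) {J : Type} {c : J → ℕ}
    {D : J → A.CH} (hN : ∀ n, NK A n ≤ Submodule.span K {a | ∃ j, c j = n ∧ a = A.cl (D j)})
    {k : ℕ} (hk : k ≤ A.dim) : ∃ t, c t = k := by
  have hnt := hA.nontrivial
  have h2 : ∃ a, A.tr a ≠ 0 := by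
    by_contra h2
    push Not at h2
    exact one_ne_zero (hA.nondeg 1 fun b => h2 _)
  have h3 : ∃ t, A.tr (b t) ≠ 0 := by
    by_contra h3
    push Not at h3
    obtain ⟨a, ha⟩ := h2
    apply ha
    rw [← b.sum_repr a, map_sum]
    exact Finset.sum_eq_zero fun t _ => by rw [map_smul, h3, smul_zero]
  obtain ⟨t, ht⟩ := h3
  have h4 : α t = ((q ^ s : ℕ) : K) ^ A.dim := by
    have h5 := hA.tr_frob (b t)
    rw [hb, map_smul, smul_eq_mul] at h5
    exact mul_right_cancel₀ ht h5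
  obtain ⟨m, hm, hbm⟩ := h1 t A.dim (by rw [zpow_natCast]; exact h4)
  have h5 : m = A.dim := by
    have h6 : (((q ^ s) ^ m : ℕ) : K) = (((q ^ s) ^ A.dim : ℕ) : K) := by
      rw [h4] at hm
      push_cast at hm ⊢
      exact hm.symm
    exact Nat.pow_right_injective hQ (Nat.cast_injective h6)
  rw [h5] at hbm
  have h6 : ∃ x, A.IsDivisorProduct A.dim x ∧ A.cl x ≠ 0 := by
    by_contra h6
    push Not at h6
    have h7 : NK A A.dim ≤ ⊥ := by
      refine Submodule.span_le.2 ?_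
      rintro _ ⟨x, hx, rfl⟩
      exact h6 x hx
    exact b.ne_zero t (h7 hbm)
  obtain ⟨x, ⟨L, hL1, hL2, rfl⟩, hx⟩ := h6
  have h7 : A.cl (L.take k).prod ≠ 0 := by
    intro h8
    apply hx
    rw [← List.prod_take_mul_prod_drop L k, map_mul, h8, zero_mul]
  have h8 : A.cl (L.take k).prod ∈ NK A k :=
    Submodule.subset_span ⟨_, ⟨L.take k, by rw [List.length_take, hL1, min_eq_left hk],
      fun y hy => hL2 y (List.mem_of_mem_take hy), rfl⟩, rfl⟩
  by_contra h9
  push Not at h9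
  have h10 := hN k h8
  have h11 : {a : A.H | ∃ j, c j = k ∧ a = A.cl (D j)} = ∅ := by
    ext a
    constructor
    · rintro ⟨j, hj, -⟩
      exact h9 j hj
    · intro h
      exact h.elim
  rw [h11, Submodule.span_empty, Submodule.mem_bot] at h10
  exact h7 h10

variable {I : Type} [Finite I] (g : I → ℕ) (E : IntermediateField ℚ ℂ) [FiniteDimensional ℚ E]
  {q : ℕ} (hq : 1 < q) (r : ℕ) (hr : ∀ i, r < g i)
  (x : (Σ i, Fin (g i)) → ℤ) (hx : GoodU (splitPrimes E) g q x)

include hq hr hx in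
/-- **The Kunneth formula, for all theories of rank at most `r` over `E`.** -/
theorem exists_classes {s : ℕ} (hA : IsAbelian A q s (fun i => weil q (polys g x i))) :
    ∃ (J : Type) (_ : Fintype J) (c : J → ℕ) (D E' : J → A.CH), IsFamily A c D ∧
      IsDual A c D E' ∧ q ^ s ≠ 0 ∧
      ∀ T : RelData A, IsRel (q ^ s) T → T.HasRank (q ^ s) E r →
        ∀ (i j : ℤ) (m : T.M), T.InvM (q ^ s) i j m →
          m = ∑ t, T.times (D t) (T.pair (E' t) m) ∧
          m = ∑ t, T.times (E' t) (T.pair (D t) m) := by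
  obtain ⟨n, b, α, hb, hα, hα0, hgood⟩ := exists_good_basis g E hq r hr x hx hA
  have hs := hA.pos
  have hQ1 : 1 < q ^ s := Nat.one_lt_pow hs.ne' hq
  have hX1 : (Polynomial.X - 1 : ℚ[X]) ≠ 0 := by
    have := Polynomial.X_sub_C_ne_zero (1 : ℚ)
    rwa [map_one] at this
  have h1 : ∀ t (c : ℤ), α t = ((q ^ s : ℕ) : K) ^ c →
      ∃ l : ℕ, α t = ((q ^ s : ℕ) : K) ^ l ∧ b t ∈ NK A l := by
    intro t c hc
    exact hgood _ hX1 (Pool.Agent.W484.CH.rank_one E r) 1
      (by rw [map_sub, aeval_X, map_one, sub_self]) t c (by rw [mul_one]; exact hc)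
  obtain ⟨J, hJ, c, D, E', hdual, hD, hE, hN⟩ := exists_dual hA hQ1 b α hb h1
  have hN' := span_dual hA hQ1 b α hb h1 hdual hE hN
  have hfam : IsFamily A c D :=
    ⟨hD, hdual.le, fun k hk => exists_codim hA hQ1 b α hb h1 hN hk⟩
  refine ⟨J, hJ, c, D, E', hfam, hdual, by omega, fun T hT hrk i j m hm => ?_⟩
  obtain ⟨χ, hχ, hrank, hkillψ⟩ := hrk i j
  obtain ⟨P, hP, hmix⟩ := exists_kill b α hb hα hα0 χ ((((q ^ s : ℕ) : ℚ)) ^ j) (by
    intro ρ hρ t ht
    obtain ⟨l, -, hl⟩ := hgood χ hχ hrank ρ hρ t j (by rw [ht]; push_cast; rfl)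
    exact ⟨l, hl⟩)
  have hV1 : ∀ m ∈ invSub T (q ^ s) i j, T.frobM m ∈ invSub T (q ^ s) i j :=
    fun m hm => inv_frob hT hm
  have hV2 : ∀ m ∈ invSub T (q ^ s) i j, T.act A.frob (T.frobM m) =
      ((q ^ s : ℕ) : ℚ) ^ j • m := fun m hm => hm.2
  have hV : ∀ m ∈ invSub T (q ^ s) i j, T.act A.frob m ∈ invSub T (q ^ s) i j := fun m hm =>
    stable_of _ T.frobM _ _ hV1 hV2 χ (coeff_zero_ne hrank) hkillψ hm
  have hR : ∀ m ∈ invSub T (q ^ s) i j,
      aeval (T.act A.frob) (rev χ (((q ^ s : ℕ) : ℚ) ^ j)) m = 0 :=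
    fun m hm => aeval_rev_op _ T.frobM _ _ hV1 hV2 χ hkillψ hm
  exact ⟨rel_core hA hT hdual P _ hP
      (fun w => act_proj_mix hA hdual hN (hmix w)) _ hV hR hm,
    rel_core hA hT hdual.symm P _ hP
      (fun w => act_proj_mix hA hdual.symm hN' (hmix w)) _ hV hR hm⟩

end Pool.Agent.Y156.L
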