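import Mathlib

/-!
# Perfect pairings
-/

set_option autoImplicit false

namespace Pool.Agent.Y156.L

variable {V W : Type*} [AddCommGroup V] [Module ℚ V] [AddCommGroup W] [Module ℚ W]
  {J : Type*} [Fintype J] {Vj Wj : J → Type*} [∀ j, AddCommGroup (Vj j)] [∀ j, Module ℚ (Vj j)]
  [∀ j, AddCommGroup (Wj j)] [∀ j, Module ℚ (Wj j)]
  (B : V →ₗ[ℚ] W →ₗ[ℚ] ℚ) (Bj : ∀ j, Vj j →ₗ[ℚ] Wj j →ₗ[ℚ] ℚ)
  (e : ∀ j, Vj j →ₗ[ℚ] V) (p : ∀ j, V →ₗ[ℚ] Vj j)
  (e' : ∀ j, Wj j →ₗ[ℚ] W) (p' : ∀ j, W →ₗ[ℚ] Wj j)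

theorem bijective_blocks (h1 : ∀ v, v = ∑ j, e j (p j v)) (h1' : ∀ w, w = ∑ j, e' j (p' j w))
    (h2 : ∀ j z, p j (e j z) = z) (h2' : ∀ j z, p' j (e' j z) = z)
    (hB : ∀ j z w, B (e j z) w = Bj j z (p' j w))
    (hB' : ∀ j v w, B v (e' j w) = Bj j (p j v) w) :
    Function.Bijective B ↔ ∀ j, Function.Bijective (Bj j) := by
  constructor
  · intro h j
    refine ⟨?_, fun f => ?_⟩
    · rw [← LinearMap.ker_eq_bot, LinearMap.ker_eq_bot']
      intro z hz
      have h3 : e j z = 0 := by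
        apply h.1
        rw [map_zero]
        ext w
        rw [hB, hz]
        rfl
      rw [← h2 j z, h3, map_zero]
    · obtain ⟨v, hv⟩ := h.2 (f ∘ₗ p' j)
      refine ⟨p j v, ?_⟩
      ext w
      rw [← hB', hv, LinearMap.comp_apply, h2']
  · intro h
    refine ⟨?_, fun f => ?_⟩
    · rw [← LinearMap.ker_eq_bot, LinearMap.ker_eq_bot']
      intro v hv
      have h3 : ∀ j, p j v = 0 := by
        intro j
        apply (h j).1
        rw [map_zero]
        ext w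
        rw [← hB', hv]
        rfl
      rw [h1 v]
      exact Finset.sum_eq_zero fun j _ => by rw [h3, map_zero]
    · choose z hz using fun j => (h j).2 (f ∘ₗ e' j)
      refine ⟨∑ j, e j (z j), ?_⟩
      ext w
      rw [map_sum, LinearMap.sum_apply]
      have h3 : ∀ j, B (e j (z j)) w = f (e' j (p' j w)) := by
        intro j
        rw [hB, hz]
        rfl
      rw [Finset.sum_congr rfl fun j _ => h3 j, ← map_sum, ← h1']

theorem isPerfPair_blocks (h1 : ∀ v, v = ∑ j, e j (p j v)) (h1' : ∀ w, w = ∑ j, e' j (p' j w))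
    (h2 : ∀ j z, p j (e j z) = z) (h2' : ∀ j z, p' j (e' j z) = z)
    (hB : ∀ j z w, B (e j z) w = Bj j z (p' j w))
    (hB' : ∀ j v w, B v (e' j w) = Bj j (p j v) w) :
    B.IsPerfPair ↔ ∀ j, (Bj j).IsPerfPair := by
  have h3 := bijective_blocks B Bj e p e' p' h1 h1' h2 h2' hB hB'
  have h4 := bijective_blocks B.flip (fun j => (Bj j).flip) e' p' e p h1' h1 h2' h2
    (fun j z w => hB' j w z) (fun j v w => hB j w v)
  constructor
  · intro h j
    exact ⟨(h3.1 h.bijective_left) j, (h4.1 h.bijective_right) j⟩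
  · intro h
    exact ⟨h3.2 fun j => (h j).bijective_left, h4.2 fun j => (h j).bijective_right⟩

end Pool.Agent.Y156.L
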