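import Mathlib
import Pool.Agent.Y156.L.Core
import Pool.Agent.Y156.L.Props
import Pool.Agent.Y156.L.Perf

/-!
# The properties hold for almost all abelian varieties
-/

set_option autoImplicit false
set_option linter.unusedSectionVars false

namespace Pool.Agent.Y156.L

open Module Polynomial Pool.Agent.W484.TB Pool.Agent.W484.HS Pool.Agent.W521.Frob
  Pool.Agent.W521.Count Pool.Agent.W521.Bad Pool.Agent.W521.Descent Pool.Agent.W521.Density

section

variable {K : Type} [Field K] [CharZero K] {A : AbelianData K} {J : Type} [Fintype J]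
  {c : J → ℕ} {D E : J → A.CH} {Q : ℕ}

theorem reg_mul {T R : RelData A} {ρ : Regulator T R} (hc : IsRegulator ρ) (x : A.CH) (n : T.N) :
    ρ.cM (T.times x n) = R.times x (ρ.cN n) := hc.mul x n

theorem reg_push {T R : RelData A} {ρ : Regulator T R} (hc : IsRegulator ρ) (x : A.CH)
    (m : T.M) : ρ.cN (T.pair x m) = R.pair x (ρ.cM m) := hc.push x m

theorem tate_iff (hF : IsFamily A c D) (h : IsDual A c D E) (hQ : Q ≠ 0) {T R : RelData A}
    (hT : IsRel Q T) (hR : IsRel Q R) {ρ : Regulator T R} (hc : IsRegulator ρ)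
    (hexp : ∀ (i j : ℤ) (m : R.M), R.InvM Q i j m → m = ∑ t, R.times (D t) (R.pair (E t) m))
    (i j : ℤ) : OntoM ρ Q i j ↔
      ∀ k : ℕ, k ≤ A.dim → OntoN ρ Q (i - 2 * k) (j - k) := by
  constructor
  · intro h0 k hk w hw
    obtain ⟨t, rfl⟩ := hF.exists_eq k hk
    have h1 := inv_times hQ hR (h.left t) hw
    rw [sub_add_cancel, sub_add_cancel] at h1
    obtain ⟨m, hm1, hm2⟩ := h0 _ h1
    change ρ.cM m = _ at hm2
    refine ⟨T.pair (E t) m, hT.pair_mem (by have := h.le t; omega) (h.right t) hm1, ?_⟩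
    change ρ.cN (T.pair (E t) m) = w
    classical
    rw [reg_push hc, hm2, dualpair hR h t t w, if_pos rfl]
  · intro h0 w hw
    have h1 := fun t => inv_pair hQ hR h hw (hexp i j w hw) t
    choose n hn1 hn2 using fun t => h0 (c t) (h.le t) _ (h1 t)
    refine ⟨∑ t, T.times (D t) (n t), ?_, ?_⟩
    · change _ ∈ T.grM i j
      refine Submodule.sum_mem _ fun t _ => ?_
      have h2 := hT.times_mem (h.left t) (hn1 t)
      rwa [sub_add_cancel, sub_add_cancel] at h2
    · change ρ.cM _ = w
      rw [map_sum]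
      conv_rhs => rw [hexp i j w hw]
      refine Finset.sum_congr rfl fun t _ => ?_
      have h3 : ρ.cN (n t) = R.pair (E t) w := hn2 t
      rw [reg_mul hc, h3]

theorem beilinson_iff (hF : IsFamily A c D) (h : IsDual A c D E) {T R : RelData A}
    (hT : IsRel Q T) {ρ : Regulator T R} (hc : IsRegulator ρ)
    (hexp : ∀ (i j : ℤ), ∀ m ∈ T.grM i j, m = ∑ t, T.times (D t) (T.pair (E t) m))
    (i j : ℤ) : InjectiveM ρ i j ↔
      ∀ k : ℕ, k ≤ A.dim → InjectiveN ρ (i - 2 * k) (j - k) := by
  constructor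
  · intro h0 k hk n hn hcn
    change ρ.cN n = 0 at hcn
    obtain ⟨t, rfl⟩ := hF.exists_eq k hk
    have h1 := hT.times_mem (h.left t) hn
    rw [sub_add_cancel, sub_add_cancel] at h1
    have h2 := h0 _ h1 (by change ρ.cM _ = 0; rw [reg_mul hc, hcn, map_zero])
    classical
    have h3 := dualpair hT h t t n
    rw [h2, map_zero, if_pos rfl] at h3
    exact h3.symm
  · intro h0 m hm hcm
    change ρ.cM m = 0 at hcm
    rw [hexp i j m hm]
    refine Finset.sum_eq_zero fun t _ => ?_
    have h1 : T.pair (E t) m = 0 := by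
      refine h0 (c t) (h.le t) _ (hT.pair_mem (by have := h.le t; omega) (h.right t) hm) ?_
      change ρ.cN _ = 0
      rw [reg_push hc, hcm, map_zero]
    rw [h1, map_zero]

theorem parshin_iff (hF : IsFamily A c D) (h : IsDual A c D E) {T : RelData A}
    (hT : IsRel Q T)
    (hexp : ∀ (i j : ℤ), ∀ m ∈ T.grM i j, m = ∑ t, T.times (D t) (T.pair (E t) m))
    (i j : ℤ) : T.grM i j = ⊥ ↔ ∀ k : ℕ, k ≤ A.dim → T.grN (i - 2 * k) (j - k) = ⊥ := by
  constructor
  · intro h0 k hk
    rw [eq_bot_iff]
    intro n hn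
    obtain ⟨t, rfl⟩ := hF.exists_eq k hk
    have h1 := hT.times_mem (h.left t) hn
    rw [sub_add_cancel, sub_add_cancel, h0, Submodule.mem_bot] at h1
    classical
    have h3 := dualpair hT h t t n
    rw [h1, map_zero, if_pos rfl] at h3
    rw [Submodule.mem_bot]
    exact h3.symm
  · intro h0
    rw [eq_bot_iff]
    intro m hm
    rw [Submodule.mem_bot, hexp i j m hm]
    refine Finset.sum_eq_zero fun t _ => ?_
    have h1 := hT.pair_mem (c := c t) (by have := h.le t; omega) (h.right t) hm
    rw [h0 (c t) (h.le t), Submodule.mem_bot] at h1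
    rw [h1, map_zero]

/-- The product with a class on `A`. -/
noncomputable def timesMap {T : RelData A} (hT : IsRel Q T) {l : ℕ} {b : A.CH} (hb : b ∈ A.codim l)
    (i j i' j' : ℤ) (hi : i + 2 * l = i') (hj : j + l = j') : T.grN i j →ₗ[ℚ] T.grM i' j' :=
  (T.times b).restrict fun z hz => by
    rw [← hi, ← hj]
    exact hT.times_mem hb hz

/-- The pairing with a class on `A`. -/
noncomputable def pairMap {T : RelData A} (hT : IsRel Q T) {l d : ℕ} {a : A.CH}
    (hl : l + d = A.dim) (ha : a ∈ A.codim d)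
    (i j i' j' : ℤ) (hi : i - 2 * l = i') (hj : j - l = j') : T.grM i j →ₗ[ℚ] T.grN i' j' :=
  (T.pair a).restrict fun z hz => by
    rw [← hi, ← hj]
    exact hT.pair_mem hl ha hz

theorem perfect_iff' (h : IsDual A c D E) {T : RelData A} (hT : IsRel Q T)
    {B : CupProduct T} (hB : IsCupProduct B)
    (hexp : ∀ (i j : ℤ), ∀ m ∈ T.grM i j, m = ∑ t, T.times (D t) (T.pair (E t) m))
    (hexp' : ∀ (i j : ℤ), ∀ m ∈ T.grM i j, m = ∑ t, T.times (E t) (T.pair (D t) m))
    (d i j : ℤ) : PerfectM B (A.dim + d) i j ↔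
      ∀ t, PerfectN B d (i - 2 * c t) (j - c t) := by
  have hc : ∀ t, ((A.dim - c t : ℕ) : ℤ) = A.dim - c t := fun t => Nat.cast_sub (h.le t)
  refine isPerfPair_blocks (B.BM.domRestrict₁₂ (T.grM i j)
      (T.grM (2 * (A.dim + d) - i) (A.dim + d - j)))
    (fun t => B.BN.domRestrict₁₂ (T.grN (i - 2 * c t) (j - c t))
      (T.grN (2 * d - (i - 2 * c t)) (d - (j - c t))))
    (fun t => timesMap hT (h.left t) _ _ _ _ (sub_add_cancel _ _) (sub_add_cancel _ _))
    (fun t => pairMap hT (l := c t) (by have := h.le t; omega) (h.right t) _ _ _ _ rfl rfl)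
    (fun t => timesMap hT (h.right t) _ _ _ _ (by rw [hc]; ring) (by rw [hc]; ring))
    (fun t => pairMap hT (l := A.dim - c t) (by have := h.le t; omega) (h.left t) _ _ _ _
      (by rw [hc]; ring) (by rw [hc]; ring))
    ?_ ?_ ?_ ?_ ?_ ?_
  · intro v
    apply Subtype.ext
    rw [AddSubmonoidClass.coe_finsetSum]
    exact hexp _ _ _ v.2
  · intro w
    apply Subtype.ext
    rw [AddSubmonoidClass.coe_finsetSum]
    exact hexp' _ _ _ w.2
  · intro t z
    apply Subtype.ext
    classical
    exact (dualpair hT h t t (z : T.N)).trans (if_pos rfl)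
  · intro t z
    apply Subtype.ext
    classical
    exact (dualpair hT h.symm t t (z : T.N)).trans (if_pos rfl)
  · intro t z w
    exact hB.left (D t) z w
  · intro t v w
    exact hB.right (E t) v w

theorem perfect_iff (hF : IsFamily A c D) (h : IsDual A c D E) {T : RelData A} (hT : IsRel Q T)
    {B : CupProduct T} (hB : IsCupProduct B)
    (hexp : ∀ (i j : ℤ), ∀ m ∈ T.grM i j, m = ∑ t, T.times (D t) (T.pair (E t) m))
    (hexp' : ∀ (i j : ℤ), ∀ m ∈ T.grM i j, m = ∑ t, T.times (E t) (T.pair (D t) m))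
    (d i j : ℤ) : PerfectM B (A.dim + d) i j ↔
      ∀ k : ℕ, k ≤ A.dim → PerfectN B d (i - 2 * k) (j - k) := by
  rw [perfect_iff' h hT hB hexp hexp' d i j]
  constructor
  · intro h0 k hk
    obtain ⟨t, rfl⟩ := hF.exists_eq k hk
    exact h0 t
  · intro h0 t
    exact h0 (c t) (h.le t)

end

section

variable {I : Type} [Finite I] (g : I → ℕ) (E : IntermediateField ℚ ℂ) [FiniteDimensional ℚ E]
  {q : ℕ} (hq : 1 < q) (r : ℕ) (hr : ∀ i, r < g i)
  (x : (Σ i, Fin (g i)) → ℤ) (hx : GoodU (splitPrimes E) g q x)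

include hq hr hx

theorem tate_of_good : TateForRankOver E q r (fun i => weil q (polys g x i)) := by
  intro K _ _ A s hA
  obtain ⟨J, hJ, c, D, E', hF, hdual, hQ, hmain⟩ := exists_classes g E hq r hr x hx hA
  refine ⟨J, hJ, c, D, hF, fun R hR hrank => ?_⟩
  have hexp := fun i j m hm => (hmain R hR hrank i j m hm).1
  exact ⟨kunneth_of hQ hR hdual hexp, fun T ρ hT hc i j =>
    tate_iff hF hdual hQ hT hR hc hexp i j⟩

theorem beilinson_of_good : BeilinsonForRankOver E q r (fun i => weil q (polys g x i)) := by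
  intro K _ _ A s hA
  obtain ⟨J, hJ, c, D, E', hF, hdual, hQ, hmain⟩ := exists_classes g E hq r hr x hx hA
  refine ⟨J, hJ, c, D, hF, fun T hT hpure hrank => ?_⟩
  have hexp := fun i j m hm => (hmain T hT hrank i j m hm).1
  exact ⟨kunneth_of hQ hT hdual hexp, fun R ρ _ hc i j =>
    beilinson_iff hF hdual hT hc (fun i j m hm => hexp i j m (hpure i j m hm)) i j⟩

theorem parshin_of_good : ParshinForRankOver E q r (fun i => weil q (polys g x i)) := by
  intro K _ _ A s hA
  obtain ⟨J, hJ, c, D, E', hF, hdual, hQ, hmain⟩ := exists_classes g E hq r hr x hx hA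
  refine ⟨J, hJ, c, D, hF, fun T hT hpure hrank => ?_⟩
  have hexp := fun i j m hm => (hmain T hT hrank i j m hm).1
  exact ⟨kunneth_of hQ hT hdual hexp, fun i j =>
    parshin_iff hF hdual hT (fun i j m hm => hexp i j m (hpure i j m hm)) i j⟩

theorem perfect_of_good : PerfectForRankOver E q r (fun i => weil q (polys g x i)) := by
  intro K _ _ A s hA
  obtain ⟨J, hJ, c, D, E', hF, hdual, hQ, hmain⟩ := exists_classes g E hq r hr x hx hA
  refine ⟨J, hJ, c, D, hF, fun T hT hpure hrank => ?_⟩
  have hexp := fun i j m hm => (hmain T hT hrank i j m hm).1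
  have hexp' := fun i j m hm => (hmain T hT hrank i j m hm).2
  exact ⟨kunneth_of hQ hT hdual hexp, fun B hB d i j =>
    perfect_iff hF hdual hT hB (fun i j m hm => hexp i j m (hpure i j m hm))
      (fun i j m hm => hexp' i j m (hpure i j m hm)) d i j⟩

end

section count

variable {I : Type} [Fintype I] (g : I → ℕ) (r : ℕ) (hr : ∀ i, r < g i)
  (E : IntermediateField ℚ ℂ) [FiniteDimensional ℚ E]

include hr

theorem count_tate : AlmostAll g fun q f => TateForRankOver E q r f :=
  count_of_goodU (splitPrimes E) (dense_splitPrimes E) g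
    (fun i => (Nat.zero_le r).trans_lt (hr i)) (fun q f => TateForRankOver E q r f)
    fun _ hq x hx => tate_of_good g E hq.one_lt r hr x hx

theorem count_beilinson : AlmostAll g fun q f => BeilinsonForRankOver E q r f :=
  count_of_goodU (splitPrimes E) (dense_splitPrimes E) g
    (fun i => (Nat.zero_le r).trans_lt (hr i)) (fun q f => BeilinsonForRankOver E q r f)
    fun _ hq x hx => beilinson_of_good g E hq.one_lt r hr x hx

theorem count_parshin : AlmostAll g fun q f => ParshinForRankOver E q r f :=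
  count_of_goodU (splitPrimes E) (dense_splitPrimes E) g
    (fun i => (Nat.zero_le r).trans_lt (hr i)) (fun q f => ParshinForRankOver E q r f)
    fun _ hq x hx => parshin_of_good g E hq.one_lt r hr x hx

theorem count_perfect : AlmostAll g fun q f => PerfectForRankOver E q r f :=
  count_of_goodU (splitPrimes E) (dense_splitPrimes E) g
    (fun i => (Nat.zero_le r).trans_lt (hr i)) (fun q f => PerfectForRankOver E q r f)
    fun _ hq x hx => perfect_of_good g E hq.one_lt r hr x hx

end count

end Pool.Agent.Y156.L
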